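import Mathlib
import Pool.Agent.N213.BM.Stm

/-! # Project CM: generalized Morse sequences with values in `ZMod r` and skew products of C*-algebras.
Definitions and statements -/

set_option autoImplicit false

namespace Pool.Agent.N213.CM

open Finset Filter Topology
open Pool.Agent.N213.BM (Sc)

/-- `g` is additive on the digits for the scale `L` -/
def Dig {r : ℕ} (L : ℕ → ℕ) (g : ℕ → ZMod r) : Prop :=
  ∀ j l h, l < L j → g (l + L j * h) = g l + g (L j * h)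

/-- the level `t` is regular -/
def Reg {r : ℕ} (L : ℕ → ℕ) (g : ℕ → ZMod r) (t : ℕ) : Prop :=
  ∀ d : ℕ, d * L t ≤ L (t + 1) → g (L t * d) = (d : ZMod r) * g (L t)

/-- the increments of `g` along `n` consecutive multiples of `B` differ from each constant in a
proportion at least `δ` -/
def Mixed {r : ℕ} (δ : ℝ) (g : ℕ → ZMod r) (B n : ℕ) : Prop := ∀ c : ZMod r,
  δ * n ≤ (((range (n - 1)).filter (fun z => g (B * (z + 1)) - g (B * z) ≠ c)).card : ℝ)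

/-- the hypothesis of the main theorem -/
def Hyp {r : ℕ} (L : ℕ → ℕ) (g : ℕ → ZMod r) : Prop :=
  (∃ T, ∀ t, T ≤ t → Reg L g t) ∨
  (∃ δ : ℝ, 0 < δ ∧ ∀ T, ∃ s t, T ≤ s ∧ s ≤ t ∧ Mixed δ g (L s) (L t / L s))

/-- `e(x) = exp(2 π i x)` -/
noncomputable def ee (x : ℝ) : ℂ := Complex.exp (2 * Real.pi * Complex.I * x)

/-- CM/COREM -/
def COREM : Prop := ∀ (r : ℕ) (p q m d R T : ℕ) (G : ℕ → ZMod r) (ep eq : ℕ) (Bad : Finset ℕ)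
  (D : ZMod r), p.Prime → q.Prime → p ≠ q → 1 ≤ d → 8 * p * q * d ≤ m → m * (T + 2) ≤ R →
  (∀ l h, l < m → G (l + m * h) = G l + G (m * h)) →
  (∀ x, x + d < R → x ∉ Bad → x + d ∉ Bad →
    (G (p * (x + d) + ep) - G (q * (x + d) + eq)) - (G (p * x + ep) - G (q * x + eq)) = D) →
  ∃ bad : ℕ, ∀ κ < q, κ ≠ bad → ∃ z₀ : ℕ, z₀ % q = κ ∧ ∃ c : ZMod r,
    d * ((range T).filter (fun i => G (m * (z₀ + q * i + 1)) - G (m * (z₀ + q * i)) ≠ c)).card ≤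
      2 * Bad.card

/-- CM/RIGM.  Mixed blocks give cancellation, uniformly in linear twists. -/
def RIGM : Prop := ∀ (r : ℕ) [NeZero r] (p q : ℕ) (δ : ℝ), p.Prime → q.Prime → p ≠ q → 3 ≤ p →
  3 ≤ q → 0 < δ → 2 ≤ δ * (p * q) → ∃ (η : ℝ) (D : ℕ), 0 < η ∧ η ≤ 1 ∧
  ∀ (m n N : ℕ) (G : ℕ → ZMod r), D ≤ m → 1 ≤ n → D ≤ N →
  (∀ l h, l < m → G (l + m * h) = G l + G (m * h)) →
  (∀ l h, l < m * n → G (l + m * n * h) = G l + G (m * n * h)) → Mixed δ G m n →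
  ∀ (ep eq : ℕ) (β : ℝ),
    ‖∑ x ∈ range (m * n * N), ZMod.stdAddChar (G (p * x + ep) - G (q * x + eq)) * ee (x * β)‖ ≤
      (1 - η) * (m * n * N : ℕ)

/-- CM/GADM.  Most low digits of a window do not transmit carries. -/
def GADM : Prop := ∀ (r : ℕ) (L : ℕ → ℕ), Sc L → ∀ g : ℕ → ZMod r, Dig L g →
  ∀ p q c lo mid M : ℕ, 1 ≤ p → p ≤ q → lo ≤ mid →
  L mid = L lo * M → 8 * (q + 1) ≤ M → ∃ A : Finset ℕ, A ⊆ range M ∧ M ≤ 2 * A.card ∧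
  ∀ α ∈ A, ∃ (ep eq : ℕ) (K : ℕ → ZMod r), ∀ u < L lo, ∀ x : ℕ,
    g (p * (u + L lo * α + L mid * x) + c) - g (q * (u + L lo * α + L mid * x) + c) =
      K u + (g (L mid * (p * x + ep)) - g (L mid * (q * x + eq)))

/-- CM/PERM.  The Möbius function and periodic functions with a linear twist. -/
def PERM : Prop := ∀ Q : ℕ, 1 ≤ Q → ∀ ε : ℝ, 0 < ε → ∃ N₀ : ℕ, ∀ N : ℕ, N₀ ≤ N → ∀ ψ : ℕ → ℂ,
  (∀ n, ψ (n + Q) = ψ n) → (∀ n, ‖ψ n‖ ≤ 1) → ∀ β : ℝ,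
  ‖∑ n ∈ Ioc 0 N, ((ArithmeticFunction.moebius n : ℤ) : ℂ) * ee (n * β) * ψ n‖ ≤ ε * N

/-- the main theorem -/
def MAINM : Prop := ∀ (r : ℕ) [NeZero r] (L : ℕ → ℕ) (g : ℕ → ZMod r), Sc L → Dig L g → Hyp L g →
  ∀ (T : ℕ) (ψ : ℕ → ℂ), (∀ n, ψ (n + L T) = ψ n) → (∀ n, ‖ψ n‖ ≤ 1) → ∀ ε : ℝ, 0 < ε →
  ∃ N₀ : ℕ, ∀ N : ℕ, N₀ ≤ N → ∀ (c : ℕ) (β : ℝ),
  ‖∑ n ∈ Ioc 0 N, ((ArithmeticFunction.moebius n : ℤ) : ℂ) * ee (n * β) *
    (ψ (n + c) * ZMod.stdAddChar (g (n + c)))‖ ≤ ε * N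

/-- CM/HYPM.  Bounded radices. -/
def HYPM : Prop := ∀ (r : ℕ) (L : ℕ → ℕ) (g : ℕ → ZMod r), Sc L → Dig L g →
  (∃ K : ℕ, ∀ t, L (t + 1) ≤ K * L t) → Hyp L g

/-- uniform orthogonality of functions of `H` consecutive values -/
def Uni {r : ℕ} (g : ℕ → ZMod r) : Prop := ∀ (H : ℕ) (ε : ℝ), 0 < ε → ∃ N₀ : ℕ,
  ∀ N : ℕ, N₀ ≤ N → ∀ (c : ℕ) (β : ℝ) (Φ : (Fin H → ZMod r) → ℂ), (∀ v, ‖Φ v‖ ≤ 1) →
  ‖∑ n ∈ Ioc 0 N, ((ArithmeticFunction.moebius n : ℤ) : ℂ) * ee (n * β) *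
    Φ (fun i => g (n + c + i))‖ ≤ ε * N

/-- functions of `H` consecutive values -/
def WORDSM : Prop := ∀ (r : ℕ) [NeZero r] (L : ℕ → ℕ) (g : ℕ → ZMod r), Sc L → Dig L g →
  (∀ j : ZMod r, Hyp L (fun n => j * g n)) → Uni g

/-- CM/WORDSM -/
def T_WORDSM : Prop := MAINM → WORDSM

/-- the two-sided subshift generated by the differences `g (n + 1) - g n`: all finite pieces of its
points occur, arbitrarily far to the right, in the sequence of differences -/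
def Y {r : ℕ} (g : ℕ → ZMod r) : Set (ℤ → ZMod r) :=
  {y | ∀ H : ℕ, ∃ c : ℕ, H ≤ c ∧ ∀ i : ℤ, |i| ≤ H →
    y i = g ((c + i).toNat + 1) - g (c + i).toNat}

theorem isClosed_Y {r : ℕ} (g : ℕ → ZMod r) : IsClosed (Y g) := by
  rw [← isOpen_compl_iff, isOpen_iff_forall_mem_open]
  intro y hy
  have hy' : ∃ H : ℕ, ∀ c : ℕ, H ≤ c → ∃ i : ℤ, |i| ≤ H ∧
      y i ≠ g ((c + i).toNat + 1) - g (c + i).toNat := by
    by_contra hcon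
    push Not at hcon
    exact hy (fun H => hcon H)
  obtain ⟨H, hH⟩ := hy'
  refine ⟨{z : ℤ → ZMod r | ∀ i ∈ Finset.Icc (-(H : ℤ)) H, z i = y i}, ?_, ?_, ?_⟩
  · intro z hz hzY
    obtain ⟨c, hc, h1⟩ := hzY H
    obtain ⟨i, hi, h2⟩ := hH c hc
    apply h2
    rw [← h1 i hi]
    exact (hz i (Finset.mem_Icc.2 (abs_le.1 hi))).symm
  · have : {z : ℤ → ZMod r | ∀ i ∈ Finset.Icc (-(H : ℤ)) H, z i = y i} =
        ⋂ i ∈ Finset.Icc (-(H : ℤ)) H, {z : ℤ → ZMod r | z i = y i} := by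
      ext z; simp
    rw [this]
    refine isOpen_biInter_finset fun i _ => ?_
    have hc : Continuous fun z : ℤ → ZMod r => z i := continuous_apply i
    exact (isOpen_discrete ({y i} : Set (ZMod r))).preimage hc
  · intro i _
    rfl

instance {r : ℕ} [NeZero r] (g : ℕ → ZMod r) : CompactSpace (Y g) :=
  isCompact_iff_compactSpace.1 (isClosed_Y g).isCompact

theorem shift_mem {r : ℕ} {g : ℕ → ZMod r} {y : ℤ → ZMod r} (hy : y ∈ Y g) (k : ℤ) :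
    (fun i => y (i + k)) ∈ Y g := by
  intro H
  obtain ⟨c, hc, h⟩ := hy (H + k.natAbs)
  have hk : (k.natAbs : ℤ) = |k| := Int.natCast_natAbs k
  have h0 : 0 ≤ (c : ℤ) + k := by
    have := neg_abs_le k
    omega
  refine ⟨((c : ℤ) + k).toNat, ?_, fun i hi => ?_⟩
  · have := neg_abs_le k
    omega
  · have h1 : |i + k| ≤ ((H + k.natAbs : ℕ) : ℤ) := by
      refine (abs_add_le i k).trans ?_
      push_cast
      omega
    show y (i + k) = _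
    rw [h (i + k) h1, Int.toNat_of_nonneg h0]
    have e : (c : ℤ) + (i + k) = c + k + i := by ring
    rw [e]

/-- the shift of the two-sided subshift -/
def S {r : ℕ} (g : ℕ → ZMod r) (k : ℤ) : Y g → Y g := fun y => ⟨fun i => y.1 (i + k), shift_mem y.2 k⟩

/-- CM/ALPHA.  The skew product is an automorphism. -/
def ALPHA : Prop := ∀ (r : ℕ) [NeZero r] (g : ℕ → ZMod r) (A : Type) [CStarAlgebra A]
  (θ : A ≃⋆ₐ[ℂ] A), (∀ a, (⇑θ)^[r] a = a) → ∃ α : C(Y g, A) ≃⋆ₐ[ℂ] C(Y g, A),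
  ∀ (F : C(Y g, A)) (y : Y g), α F y = (⇑θ)^[(y.1 0).val] (F (S g 1 y))

/-- CM/CST.  Norm convergence for the skew product. -/
def CST : Prop := ∀ (r : ℕ) [NeZero r] (g : ℕ → ZMod r), Uni g → ∀ (A : Type) [CStarAlgebra A]
  (θ : A ≃⋆ₐ[ℂ] A), (∀ a, (⇑θ)^[r] a = a) → ∀ α : C(Y g, A) → C(Y g, A),
  (∀ (F : C(Y g, A)) (y : Y g), α F y = (⇑θ)^[(y.1 0).val] (F (S g 1 y))) →
  ∀ (F : C(Y g, A)) (ε : ℝ), 0 < ε → ∃ N₀ : ℕ, ∀ N : ℕ, N₀ ≤ N → ∀ β : ℝ,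
  ‖∑ n ∈ Ioc 0 N, (((ArithmeticFunction.moebius n : ℤ) : ℂ) * ee (n * β)) • (α^[n] F)‖ ≤ ε * N

end Pool.Agent.N213.CM
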