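import Mathlib
import Pool.Agent.N213.CM.Stm

/-!
# Project CM (helper213), part ALPHA (helper401): the skew product is an automorphism
-/

set_option autoImplicit false
set_option linter.all false

namespace Pool.Agent.N213.CM

open Finset Filter Topology

namespace AlphaX

theorem cont_S {r : ℕ} (g : ℕ → ZMod r) (k : ℤ) : Continuous (S g k) := by
  refine Continuous.subtype_mk ?_ _
  exact continuous_pi fun i => (continuous_apply (i + k)).comp continuous_subtype_val

section

variable {A : Type} [CStarAlgebra A] (θ : A ≃⋆ₐ[ℂ] A)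

theorem it_add (n : ℕ) (a b : A) : (⇑θ)^[n] (a + b) = (⇑θ)^[n] a + (⇑θ)^[n] b :=
  iterate_map_add θ n a b

theorem it_mul (n : ℕ) (a b : A) : (⇑θ)^[n] (a * b) = (⇑θ)^[n] a * (⇑θ)^[n] b :=
  iterate_map_mul θ n a b

theorem it_star (n : ℕ) (a : A) : (⇑θ)^[n] (star a) = star ((⇑θ)^[n] a) := by
  induction n with
  | zero => rfl
  | succ n ih => rw [Function.iterate_succ_apply', Function.iterate_succ_apply', ih, map_star]

theorem it_smul (n : ℕ) (c : ℂ) (a : A) : (⇑θ)^[n] (c • a) = c • (⇑θ)^[n] a := by
  induction n with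
  | zero => rfl
  | succ n ih => rw [Function.iterate_succ_apply', Function.iterate_succ_apply', ih, map_smul]

theorem it_cont (n : ℕ) : Continuous (⇑θ)^[n] :=
  (StarAlgEquiv.isometry θ).continuous.iterate n

variable {r : ℕ}

/-- the map of the continuous functions given by iterates of `θ` and a map of the space -/
noncomputable def mk {Z : Type} [TopologicalSpace Z] (e : ZMod r → ℕ) (c : Z → ZMod r)
    (hc : Continuous c) (T : Z → Z) (hT : Continuous T) (F : C(Z, A)) : C(Z, A) where
  toFun y := (⇑θ)^[e (c y)] (F (T y))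
  continuous_toFun := by
    have h1 : Continuous fun p : ZMod r × A => (⇑θ)^[e p.1] p.2 :=
      continuous_prod_of_discrete_left.2 fun k => it_cont θ (e k)
    exact h1.comp (hc.prodMk (F.continuous.comp hT))

end

end AlphaX

open AlphaX

theorem alpha : ALPHA := by
  intro r _ g A _ θ hθ
  have h0 : ∀ k : ℤ, Continuous fun y : Y g => y.1 k := fun k =>
    (continuous_apply k).comp continuous_subtype_val
  have hSS : ∀ (k l : ℤ), k + l = 0 → ∀ y : Y g, S g k (S g l y) = y := by
    intro k l hkl y
    apply Subtype.ext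
    funext i
    change y.1 (i + k + l) = y.1 i
    rw [add_assoc, hkl, add_zero]
  have hinv : ∀ (v w : ℕ), v + w = r → ∀ a, (⇑θ)^[v] ((⇑θ)^[w] a) = a := by
    intro v w hvw a
    rw [← Function.iterate_add_apply, hvw, hθ]
  refine ⟨{ toFun := mk θ (fun k => k.val) (fun y => y.1 0) (h0 0) (S g 1) (cont_S g 1)
            invFun := mk θ (fun k => r - k.val) (fun y => y.1 (-1)) (h0 (-1)) (S g (-1))
              (cont_S g (-1))
            left_inv := ?_
            right_inv := ?_
            map_mul' := ?_
            map_add' := ?_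
            map_star' := ?_
            map_smul' := ?_ }, fun F y => rfl⟩
  · intro F
    ext y
    change (⇑θ)^[r - (y.1 (-1)).val] ((⇑θ)^[((S g (-1) y).1 0).val] (F (S g 1 (S g (-1) y)))) = F y
    rw [hSS 1 (-1) (by norm_num)]
    have h1 : (S g (-1) y).1 0 = y.1 (-1) := by
      change y.1 (0 + -1) = y.1 (-1)
      rw [zero_add]
    rw [h1]
    exact hinv _ _ (Nat.sub_add_cancel (ZMod.val_lt _).le) _
  · intro F
    ext y
    change (⇑θ)^[(y.1 0).val] ((⇑θ)^[r - ((S g 1 y).1 (-1)).val] (F (S g (-1) (S g 1 y)))) = F y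
    rw [hSS (-1) 1 (by norm_num)]
    have h1 : (S g 1 y).1 (-1) = y.1 0 := by
      change y.1 (-1 + 1) = y.1 0
      rw [neg_add_cancel]
    rw [h1]
    exact hinv _ _ (Nat.add_sub_cancel' (ZMod.val_lt _).le) _
  · intro F G
    ext y
    exact it_mul θ _ _ _
  · intro F G
    ext y
    exact it_add θ _ _ _
  · intro F
    ext y
    exact it_star θ _ _
  · intro c F
    ext y
    exact it_smul θ _ _ _

end Pool.Agent.N213.CM
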