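import Mathlib
import Pool.Agent.N213.CM.Stm

/-! # Project CM: skew products with a commuting automorphism with discrete spectrum -/

set_option autoImplicit false

namespace Pool.Agent.N213.CM

open Finset Filter Topology

/-- the eigenvectors of `γ` span a dense subspace -/
def DiscreteSpectrum {A : Type} [CStarAlgebra A] (γ : A ≃⋆ₐ[ℂ] A) : Prop :=
  ∀ (a : A) (ε : ℝ), 0 < ε → ∃ b ∈ Submodule.span ℂ {v : A | ∃ l : ℂ, γ v = l • v}, ‖a - b‖ < ε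

/-- CM/ALPHAG -/
def ALPHAG : Prop := ∀ (r : ℕ) [NeZero r] (g : ℕ → ZMod r) (A : Type) [CStarAlgebra A]
  (θ γ : A ≃⋆ₐ[ℂ] A), (∀ a, (⇑θ)^[r] a = a) → ∃ α : C(Y g, A) ≃⋆ₐ[ℂ] C(Y g, A),
  ∀ (F : C(Y g, A)) (y : Y g), α F y = γ ((⇑θ)^[(y.1 0).val] (F (S g 1 y)))

/-- CM/CSTG.  Norm convergence for the skew product. -/
def CSTG : Prop := ∀ (r : ℕ) [NeZero r] (g : ℕ → ZMod r), Uni g → ∀ (A : Type) [CStarAlgebra A]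
  (θ γ : A ≃⋆ₐ[ℂ] A), (∀ a, (⇑θ)^[r] a = a) → (∀ a, θ (γ a) = γ (θ a)) → DiscreteSpectrum γ →
  ∀ α : C(Y g, A) → C(Y g, A),
  (∀ (F : C(Y g, A)) (y : Y g), α F y = γ ((⇑θ)^[(y.1 0).val] (F (S g 1 y)))) →
  ∀ (F : C(Y g, A)) (ε : ℝ), 0 < ε → ∃ N₀ : ℕ, ∀ N : ℕ, N₀ ≤ N → ∀ β : ℝ,
  ‖∑ n ∈ Ioc 0 N, (((ArithmeticFunction.moebius n : ℤ) : ℂ) * ee (n * β)) • (α^[n] F)‖ ≤ ε * N

end Pool.Agent.N213.CM
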