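import Mathlib
import Pool.Agent.N213.CM.Stm2

/-! # Project CM: the skew product with a second automorphism (CM/ALPHAG) -/

set_option autoImplicit false

namespace Pool.Agent.N213.CM.AlphaGX

/-- composition with a `*`-isomorphism of C*-algebras, on continuous functions -/
noncomputable def lift {X A : Type} [TopologicalSpace X] [CompactSpace X] [CStarAlgebra A]
    (γ : A ≃⋆ₐ[ℂ] A) (hγ : Continuous γ) (hγ' : Continuous γ.symm) : C(X, A) ≃⋆ₐ[ℂ] C(X, A) where
  toFun F := ⟨fun y => γ (F y), hγ.comp F.continuous⟩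
  invFun F := ⟨fun y => γ.symm (F y), hγ'.comp F.continuous⟩
  left_inv F := by
    ext y
    exact γ.symm_apply_apply (F y)
  right_inv F := by
    ext y
    exact γ.apply_symm_apply (F y)
  map_mul' F G := by
    ext y
    exact map_mul γ (F y) (G y)
  map_add' F G := by
    ext y
    exact map_add γ (F y) (G y)
  map_star' F := by
    ext y
    exact map_star γ (F y)
  map_smul' c F := by
    ext y
    exact map_smul γ c (F y)

theorem cont {A : Type} [CStarAlgebra A] (γ : A ≃⋆ₐ[ℂ] A) : Continuous γ :=
  (StarAlgEquiv.isometry γ).continuous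

end Pool.Agent.N213.CM.AlphaGX

namespace Pool.Agent.N213.CM

theorem alphag : ALPHA → ALPHAG := by
  intro hA r _ g A _ θ γ hθ
  obtain ⟨α, hα⟩ := hA r g A θ hθ
  refine ⟨α.trans (AlphaGX.lift γ (AlphaGX.cont γ) (AlphaGX.cont γ.symm)), fun F y => ?_⟩
  change γ (α F y) = _
  rw [hα F y]

end Pool.Agent.N213.CM
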