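import Pool.Agent.N213.CM.Stm

/-!
# CM/CORE: the crossings of the multiples of `m` by `q x + eq`, values in `ZMod r`
(helper698, after the proof of BM/CORE by helper595)
-/

set_option autoImplicit false

namespace Pool.Agent.N213.CM

open Finset Filter Topology

namespace CoreX

/-- two crossings at the same place -/
def BadK (p q m d ep eq κ : ℕ) : Prop := ∃ z Y w : ℕ, z % q = κ ∧ q * Y + eq < m * (z + 1) ∧
  m * (z + 1) ≤ q * (Y + d) + eq ∧ p * Y + ep < m * w ∧ m * w ≤ p * (Y + d) + ep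

theorem bad_unique {p q m d ep eq κ κ' : ℕ} (hp : p.Prime) (hq : q.Prime) (hpq : p ≠ q)
    (hd : 1 ≤ d) (hm : 8 * p * q * d ≤ m) (h : BadK p q m d ep eq κ)
    (h' : BadK p q m d ep eq κ') : κ = κ' := by
  obtain ⟨z, Y, w, hz, h1, h2, h3, h4⟩ := h
  obtain ⟨z', Y', w', hz', h1', h2', h3', h4'⟩ := h'
  have hp0 : (0:ℤ) < p := by exact_mod_cast hp.pos
  have hq0 : (0:ℤ) < q := by exact_mod_cast hq.pos
  have hd0 : (0:ℤ) < d := by exact_mod_cast hd
  zify at h1 h2 h3 h4 h1' h2' h3' h4' hm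
  have key : ∀ z Y w : ℤ, (q:ℤ) * Y + eq < m * (z + 1) → (m:ℤ) * (z + 1) ≤ q * (Y + d) + eq →
      (p:ℤ) * Y + ep < m * w → (m:ℤ) * w ≤ p * (Y + d) + ep →
      (m:ℤ) * (q * w - p * (z + 1)) - (q * ep - p * eq) < p * q * d ∧
      -((p:ℤ) * q * d) < (m:ℤ) * (q * w - p * (z + 1)) - (q * ep - p * eq) := by
    intro z Y w k1 k2 k3 k4
    have a1 := mul_lt_mul_of_pos_left k1 hp0
    have a2 := mul_le_mul_of_nonneg_left k2 hp0.le
    have a3 := mul_lt_mul_of_pos_left k3 hq0
    have a4 := mul_le_mul_of_nonneg_left k4 hq0.le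
    constructor <;> nlinarith
  obtain ⟨b1, b2⟩ := key z Y w h1 h2 h3 h4
  obtain ⟨b3, b4⟩ := key z' Y' w' h1' h2' h3' h4'
  have hpqd : (0:ℤ) < p * q * d := by positivity
  have hm0 : (0:ℤ) < m := by nlinarith
  have hA : (q:ℤ) * w - p * (z + 1) = q * w' - p * (z' + 1) := by
    by_contra hne
    rcases lt_or_gt_of_ne hne with h | h
    · have h5 : (q:ℤ) * w - p * (z + 1) + 1 ≤ q * w' - p * (z' + 1) := h
      have h6 := mul_le_mul_of_nonneg_left h5 hm0.le
      nlinarith
    · have h5 : (q:ℤ) * w' - p * (z' + 1) + 1 ≤ q * w - p * (z + 1) := h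
      have h6 := mul_le_mul_of_nonneg_left h5 hm0.le
      nlinarith
  have hdiv : (q:ℤ) ∣ (p:ℤ) * ((z':ℤ) - z) := ⟨w' - w, by linarith⟩
  have hcop : IsCoprime (q:ℤ) (p:ℤ) :=
    Nat.isCoprime_iff_coprime.2 ((Nat.coprime_primes hq hp).2 hpq.symm)
  have h7 : (q:ℤ) ∣ (z':ℤ) - z := hcop.dvd_of_dvd_mul_left hdiv
  have h8 : (z:ℤ) ≡ z' [ZMOD q] := Int.modEq_iff_dvd.2 h7
  have h9 : z ≡ z' [MOD q] := Int.natCast_modEq_iff.1 h8
  rw [← hz, ← hz']
  exact h9

/-- a crossing of `q x + eq` and no crossing of `p x + ep` -/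
theorem shift {r p q m d ep eq z Y : ℕ} {G : ℕ → ZMod r} (hm : q * d < m)
    (hG : ∀ l h, l < m → G (l + m * h) = G l + G (m * h))
    (h1 : q * Y + eq < m * (z + 1)) (h2 : m * (z + 1) ≤ q * (Y + d) + eq)
    (h3 : ∀ w, ¬ (p * Y + ep < m * w ∧ m * w ≤ p * (Y + d) + ep)) :
    ∃ c : ZMod r, ∀ i, (G (p * (Y + m * i + d) + ep) - G (q * (Y + m * i + d) + eq)) -
      (G (p * (Y + m * i) + ep) - G (q * (Y + m * i) + eq)) =
      c - (G (m * (z + q * i + 1)) - G (m * (z + q * i))) := by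
  have hm0 : 0 < m := by omega
  -- the decomposition of `q Y + eq`
  have hqd : q * (Y + d) = q * Y + q * d := by ring
  have hz1 : m * (z + 1) = m * z + m := by ring
  obtain ⟨l', hl'⟩ : ∃ l', q * Y + eq = l' + m * z := ⟨q * Y + eq - m * z, by omega⟩
  obtain ⟨l'', hl''⟩ : ∃ l'', q * (Y + d) + eq = l'' + m * (z + 1) :=
    ⟨q * (Y + d) + eq - m * (z + 1), by omega⟩
  have hl1 : l' < m := by omega
  have hl2 : l'' < m := by omega
  -- the decomposition of `p Y + ep`
  obtain ⟨l, w, hl, hlm⟩ : ∃ l w, p * Y + ep = l + m * w ∧ l < m :=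
    ⟨(p * Y + ep) % m, (p * Y + ep) / m, (Nat.mod_add_div _ _).symm, Nat.mod_lt _ hm0⟩
  have hpd : p * (Y + d) = p * Y + p * d := by ring
  have hlpd : l + p * d < m := by
    have := h3 (w + 1)
    have e : m * (w + 1) = m * w + m := by ring
    omega
  refine ⟨(G (l + p * d) - G l) - (G l'' - G l'), fun i => ?_⟩
  have e1 : p * (Y + m * i) + ep = l + m * (w + p * i) := by
    have : p * (Y + m * i) + ep = (p * Y + ep) + m * (p * i) := by ring
    rw [this, hl]; ring
  have e2 : q * (Y + m * i) + eq = l' + m * (z + q * i) := by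
    have : q * (Y + m * i) + eq = (q * Y + eq) + m * (q * i) := by ring
    rw [this, hl']; ring
  have e3 : p * (Y + m * i + d) + ep = (l + p * d) + m * (w + p * i) := by
    have : p * (Y + m * i + d) + ep = (p * Y + ep) + p * d + m * (p * i) := by ring
    rw [this, hl]; ring
  have e4 : q * (Y + m * i + d) + eq = l'' + m * (z + q * i + 1) := by
    have : q * (Y + m * i + d) + eq = (q * (Y + d) + eq) + m * (q * i) := by ring
    rw [this, hl'']; ring
  rw [e1, e2, e3, e4, hG _ _ hlm, hG _ _ hl1, hG _ _ hlpd, hG _ _ hl2]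
  ring

end CoreX

open CoreX in
/-- **CM/CORE** -/
theorem corem : COREM := by
  classical
  intro r p q m d R T G ep eq Bad D hp hq hpq hd hm hR hG hD
  have hp1 := hp.one_lt
  have hq1 := hq.one_lt
  have hqd : q * d < m := by
    have h1 : q * d * 1 ≤ q * d * p := Nat.mul_le_mul_left _ hp.pos
    have h2 : 8 * p * q * d = 8 * (q * d * p) := by ring
    have h3 : 0 < q * d := Nat.mul_pos hq.pos hd
    omega
  have hm0 : 0 < m := by omega
  have hdm : d < m := by
    have : 1 * d ≤ q * d := Nat.mul_le_mul_right _ hq.pos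
    omega
  obtain ⟨bad, hbad⟩ : ∃ bad : ℕ, ∀ κ, κ ≠ bad → ¬ BadK p q m d ep eq κ := by
    by_cases h : ∃ κ, BadK p q m d ep eq κ
    · obtain ⟨κ₁, h1⟩ := h
      exact ⟨κ₁, fun κ hκ hb => hκ (bad_unique hp hq hpq hd hm hb h1)⟩
    · exact ⟨0, fun κ _ hb => h ⟨κ, hb⟩⟩
  refine ⟨bad, ?_⟩
  intro κ hκ hκb
  have hnb := hbad κ hκb
  have hex : ∃ z, z % q = κ ∧ eq + q * d ≤ m * (z + 1) := by
    refine ⟨κ + q * (eq + q * d), ?_, ?_⟩
    · rw [Nat.add_mul_mod_self_left, Nat.mod_eq_of_lt hκ]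
    · have h1 : 1 * (eq + q * d) ≤ q * (eq + q * d) := Nat.mul_le_mul_right _ hq.pos
      have h2 : 1 * (κ + q * (eq + q * d) + 1) ≤ m * (κ + q * (eq + q * d) + 1) :=
        Nat.mul_le_mul_right _ hm0
      omega
  obtain ⟨z₀, hz₀, hz₁, hmin⟩ : ∃ z₀, z₀ % q = κ ∧ eq + q * d ≤ m * (z₀ + 1) ∧
      ∀ z < z₀, ¬ (z % q = κ ∧ eq + q * d ≤ m * (z + 1)) :=
    ⟨Nat.find hex, (Nat.find_spec hex).1, (Nat.find_spec hex).2, fun z hz => Nat.find_min hex hz⟩
  have hz₂ : m * (z₀ + 1) ≤ eq + q * d + q * m := by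
    by_cases h : z₀ < q
    · have h1 : m * (z₀ + 1) ≤ m * q := Nat.mul_le_mul_left _ h
      have h2 : m * q = q * m := mul_comm _ _
      omega
    · push Not at h
      have h1 := hmin (z₀ - q) (by omega)
      rw [not_and] at h1
      have h2 : (z₀ - q) % q = κ := by
        rw [← hz₀, ← Nat.sub_add_cancel h, Nat.add_sub_cancel, Nat.add_mod_right]
      have h3 := h1 h2
      have h4 : m * (z₀ + 1) = m * (z₀ - q + 1) + q * m := by
        obtain ⟨s, rfl⟩ := Nat.exists_eq_add_of_le h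
        rw [Nat.add_sub_cancel_left]
        ring
      omega
  obtain ⟨X, hX1, hX2⟩ : ∃ X, m * (z₀ + 1) ≤ q * X + eq ∧ q * X + eq < m * (z₀ + 1) + q := by
    obtain ⟨M, hM⟩ : ∃ M, m * (z₀ + 1) = M + eq := ⟨m * (z₀ + 1) - eq, by omega⟩
    refine ⟨(M + q - 1) / q, ?_, ?_⟩
    · have := Nat.lt_mul_div_succ (M + q - 1) hq.pos
      have e : q * ((M + q - 1) / q + 1) = q * ((M + q - 1) / q) + q := by ring
      omega
    · have := Nat.mul_div_le (M + q - 1) q
      omega
  have hXd : d ≤ X := by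
    have : q * d ≤ q * X := by omega
    exact Nat.le_of_mul_le_mul_left this hq.pos
  have hXm : X ≤ d + m := by
    have h1 : q * X < q * (d + m + 1) := by
      have : q * (d + m + 1) = q * d + q * m + q := by ring
      omega
    have := Nat.lt_of_mul_lt_mul_left h1
    omega
  -- the constants
  have hc : ∀ j : ℕ, ∃ c : ZMod r, j ∈ Icc 1 d → ∀ i,
      (G (p * (X - j + m * i + d) + ep) - G (q * (X - j + m * i + d) + eq)) -
      (G (p * (X - j + m * i) + ep) - G (q * (X - j + m * i) + eq)) =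
      c - (G (m * (z₀ + q * i + 1)) - G (m * (z₀ + q * i))) := by
    intro j
    by_cases hj : j ∈ Icc 1 d
    · have hj' := hj
      rw [mem_Icc] at hj'
      obtain ⟨Y, hY⟩ : ∃ Y, X = Y + j := ⟨X - j, by omega⟩
      have hY2 : X - j = Y := by omega
      have a1 : q * Y + eq < m * (z₀ + 1) := by
        have : q * X = q * Y + q * j := by rw [hY]; ring
        have h2 : q * 1 ≤ q * j := Nat.mul_le_mul_left _ hj'.1
        omega
      have a2 : m * (z₀ + 1) ≤ q * (Y + d) + eq := by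
        have : q * X ≤ q * (Y + d) := Nat.mul_le_mul_left _ (by omega)
        omega
      obtain ⟨c, hc⟩ := shift hqd hG a1 a2
        (fun w hw => hnb ⟨z₀, Y, w, hz₀, a1, a2, hw.1, hw.2⟩)
      refine ⟨c, fun _ => ?_⟩
      rw [hY2]
      exact hc
    · exact ⟨0, fun h => absurd h hj⟩
  choose c hc using hc
  -- counting
  have hinj : ∀ s : ℕ, s ≤ d → ∑ j ∈ Icc 1 d, ((range T).filter (fun i =>
      X - j + m * i + s ∈ Bad)).card ≤ Bad.card := by
    intro s hs
    rw [← card_sigma]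
    refine card_le_card_of_injOn (fun a : Σ _ : ℕ, ℕ => X - a.1 + m * a.2 + s) ?_ ?_
    · rintro ⟨j, i⟩ ha
      simp only [mem_coe, mem_sigma, mem_Icc, mem_filter, mem_range] at ha ⊢
      exact ha.2.2
    · rintro ⟨j, i⟩ ha ⟨j', i'⟩ hb hab
      simp only [mem_coe, mem_sigma, mem_Icc, mem_filter, mem_range] at ha hb hab
      have hr : i = i' := by
        rcases lt_trichotomy i i' with h | h | h
        · have : m * (i + 1) ≤ m * i' := Nat.mul_le_mul_left _ h
          have e : m * (i + 1) = m * i + m := by ring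
          omega
        · exact h
        · have : m * (i' + 1) ≤ m * i := Nat.mul_le_mul_left _ h
          have e : m * (i' + 1) = m * i' + m := by ring
          omega
      subst hr
      have hj : j = j' := by omega
      subst hj
      rfl
  have hcount : ∀ j ∈ Icc 1 d, ((range T).filter (fun i =>
      G (m * (z₀ + q * i + 1)) - G (m * (z₀ + q * i)) ≠ c j - D)).card ≤
      ((range T).filter (fun i => X - j + m * i + 0 ∈ Bad)).card +
      ((range T).filter (fun i => X - j + m * i + d ∈ Bad)).card := by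
    intro j hj
    refine le_trans (card_le_card ?_) (card_union_le _ _)
    intro i hi
    simp only [mem_filter, mem_union, mem_range] at hi ⊢
    by_contra hcon
    simp only [not_or, not_and, add_zero] at hcon
    have h1 := hcon.1 hi.1
    have h2 := hcon.2 hi.1
    apply hi.2
    have h3 := hc j hj i
    have hlt : X - j + m * i + d < R := by
      rw [mem_Icc] at hj
      have h4 : m * i + m ≤ m * T := by
        have : m * (i + 1) ≤ m * T := Nat.mul_le_mul_left _ hi.1
        have e : m * (i + 1) = m * i + m := by ring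
        omega
      have h5 : m * (T + 2) = m * T + 2 * m := by ring
      omega
    rw [hD _ hlt h1 h2] at h3
    linear_combination h3
  have hsum : ∑ j ∈ Icc 1 d, ((range T).filter (fun i =>
      G (m * (z₀ + q * i + 1)) - G (m * (z₀ + q * i)) ≠ c j - D)).card ≤ 2 * Bad.card := by
    refine (sum_le_sum hcount).trans ?_
    rw [sum_add_distrib]
    have h1 := hinj 0 (Nat.zero_le _)
    have h2 := hinj d le_rfl
    omega
  obtain ⟨j, hj, hjle⟩ : ∃ j ∈ Icc 1 d, d * ((range T).filter (fun i =>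
      G (m * (z₀ + q * i + 1)) - G (m * (z₀ + q * i)) ≠ c j - D)).card ≤ 2 * Bad.card := by
    by_contra hcon
    push Not at hcon
    have hne : (Icc 1 d).Nonempty := ⟨1, by rw [mem_Icc]; omega⟩
    have h1 := sum_lt_sum_of_nonempty hne hcon
    rw [sum_const, ← mul_sum, Nat.card_Icc, Nat.add_sub_cancel, smul_eq_mul] at h1
    have h2 := Nat.lt_of_mul_lt_mul_left h1
    omega
  exact ⟨z₀, hz₀, c j - D, hjle⟩

end Pool.Agent.N213.CM
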