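import Pool.Agent.N213.CM.Stm

/-! # Project CM: norm convergence for the skew product (leaf CM/CST, helper692) -/

set_option autoImplicit false

namespace Pool.Agent.N213.CM

open Finset Filter Topology

namespace CstX

variable {r : ℕ} [NeZero r]

/-- a continuous function on the subshift is almost a function of finitely many coordinates -/
theorem approx {A : Type} [CStarAlgebra A] (g : ℕ → ZMod r) (F : C(Y g, A)) (ε : ℝ) (hε : 0 < ε) :
    ∃ H : ℕ, ∀ y z : Y g, (∀ i : ℤ, |i| ≤ H → y.1 i = z.1 i) → ‖F y - F z‖ ≤ ε := by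
  by_contra hc
  push Not at hc
  choose y z hyz hd using hc
  obtain ⟨a, f, hf, ha⟩ := CompactSpace.tendsto_subseq y
  have hz : Tendsto (z ∘ f) atTop (𝓝 a) := by
    rw [tendsto_subtype_rng] at ha ⊢
    rw [tendsto_pi_nhds] at ha ⊢
    intro i
    refine (ha i).congr' ?_
    filter_upwards [eventually_ge_atTop i.natAbs] with k hk
    refine hyz (f k) i ?_
    have h1 : k ≤ f k := hf.id_le k
    have h2 : (i.natAbs : ℤ) = |i| := Int.natCast_natAbs i
    omega
  have h1 : Tendsto (fun k => ‖F (y (f k)) - F (z (f k))‖) atTop (𝓝 0) := by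
    have h2 := (((F.continuous.tendsto a).comp ha).sub ((F.continuous.tendsto a).comp hz)).norm
    rw [sub_self, norm_zero] at h2
    exact h2
  have h3 := h1.eventually_lt_const hε
  obtain ⟨k, hk⟩ := h3.exists
  exact absurd (hd (f k)) (not_lt.2 hk.le)

theorem iter_add {A : Type} [CStarAlgebra A] (θ : A ≃⋆ₐ[ℂ] A) (hθ : ∀ a, (⇑θ)^[r] a = a)
    (u v : ZMod r) (a : A) : (⇑θ)^[u.val] ((⇑θ)^[v.val] a) = (⇑θ)^[(u + v).val] a := by
  rw [← Function.iterate_add_apply, ZMod.val_add]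
  have h : Function.IsPeriodicPt (⇑θ) r a := hθ a
  rw [h.iterate_mod_apply]

theorem iter_norm {A : Type} [CStarAlgebra A] (θ : A ≃⋆ₐ[ℂ] A) (k : ℕ) (a : A) :
    ‖(⇑θ)^[k] a‖ = ‖a‖ := by
  induction k generalizing a with
  | zero => rfl
  | succ k ih =>
    rw [Function.iterate_succ_apply, ih]
    exact NonUnitalStarAlgHom.norm_map (θ : A →⋆ₙₐ[ℂ] A) θ.injective a

theorem iter_sub {A : Type} [CStarAlgebra A] (θ : A ≃⋆ₐ[ℂ] A) (k : ℕ) (a b : A) :
    (⇑θ)^[k] (a - b) = (⇑θ)^[k] a - (⇑θ)^[k] b := by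
  induction k generalizing a b with
  | zero => rfl
  | succ k ih =>
    rw [Function.iterate_succ_apply, Function.iterate_succ_apply, Function.iterate_succ_apply,
      map_sub, ih]

theorem S_S (g : ℕ → ZMod r) (k l : ℤ) (y : Y g) : S g k (S g l y) = S g (k + l) y := by
  apply Subtype.ext
  funext i
  show y.1 (i + k + l) = y.1 (i + (k + l))
  rw [add_assoc]

theorem alpha_iter {A : Type} [CStarAlgebra A] (g : ℕ → ZMod r) (θ : A ≃⋆ₐ[ℂ] A)
    (hθ : ∀ a, (⇑θ)^[r] a = a) (α : C(Y g, A) → C(Y g, A))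
    (hα : ∀ (F : C(Y g, A)) (y : Y g), α F y = (⇑θ)^[(y.1 0).val] (F (S g 1 y)))
    (F : C(Y g, A)) (n : ℕ) (y : Y g) :
    (α^[n] F) y = (⇑θ)^[(∑ i ∈ range n, y.1 (i : ℤ)).val] (F (S g n y)) := by
  induction n generalizing y with
  | zero =>
    rw [Function.iterate_zero, id, Finset.range_zero, Finset.sum_empty, ZMod.val_zero,
      Function.iterate_zero, id]
    have : S g ((0 : ℕ) : ℤ) y = y := by
      apply Subtype.ext
      funext i
      show y.1 (i + ((0 : ℕ) : ℤ)) = y.1 i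
      simp
    rw [this]
  | succ n ih =>
    rw [Function.iterate_succ_apply', hα, ih, iter_add θ hθ, S_S]
    have e1 : y.1 0 + ∑ i ∈ range n, (S g 1 y).1 (i : ℤ) = ∑ i ∈ range (n + 1), y.1 (i : ℤ) := by
      rw [Finset.sum_range_succ', add_comm]
      congr 1
    have e2 : ((n : ℕ) : ℤ) + 1 = ((n + 1 : ℕ) : ℤ) := by push_cast; ring
    rw [e1, e2]

theorem mu_le (n : ℕ) : ‖((ArithmeticFunction.moebius n : ℤ) : ℂ)‖ ≤ 1 := by
  rw [Complex.norm_intCast]
  exact_mod_cast ArithmeticFunction.abs_moebius_le_one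

theorem ee_norm (x : ℝ) : ‖ee x‖ = 1 := by
  unfold ee
  have : (2 * Real.pi * Complex.I * x : ℂ) = ((2 * Real.pi * x : ℝ) : ℂ) * Complex.I := by
    push_cast; ring
  rw [this, Complex.norm_exp_ofReal_mul_I]

/-- the value of the function at a word -/
noncomputable def val {A : Type} [CStarAlgebra A] (g : ℕ → ZMod r) (F : C(Y g, A)) (H : ℕ)
    (w : Fin (2 * H + 1) → ZMod r) : A :=
  open Classical in
  if h : ∃ y : Y g, ∀ i : Fin (2 * H + 1), y.1 ((i : ℕ) - (H : ℤ)) = w i then F h.choose else 0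

theorem val_norm {A : Type} [CStarAlgebra A] (g : ℕ → ZMod r) (F : C(Y g, A)) (H : ℕ)
    (w : Fin (2 * H + 1) → ZMod r) : ‖val g F H w‖ ≤ ‖F‖ := by
  unfold val
  split_ifs with h
  · exact F.norm_coe_le_norm _
  · rw [norm_zero]; exact norm_nonneg _

theorem val_near {A : Type} [CStarAlgebra A] (g : ℕ → ZMod r) (F : C(Y g, A)) (H : ℕ) (ε : ℝ)
    (hH : ∀ y z : Y g, (∀ i : ℤ, |i| ≤ H → y.1 i = z.1 i) → ‖F y - F z‖ ≤ ε)
    (y : Y g) (w : Fin (2 * H + 1) → ZMod r) (hw : ∀ i : Fin (2 * H + 1), y.1 ((i : ℕ) - (H : ℤ)) = w i) :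
    ‖F y - val g F H w‖ ≤ ε := by
  have h : ∃ y : Y g, ∀ i : Fin (2 * H + 1), y.1 ((i : ℕ) - (H : ℤ)) = w i := ⟨y, hw⟩
  unfold val
  rw [dif_pos h]
  apply hH
  intro i hi
  have hs := h.choose_spec
  have hi' := abs_le.1 hi
  have h0 : 0 ≤ i + H := by omega
  have h1 : (i + H).toNat < 2 * H + 1 := by omega
  have h2 : (((i + H).toNat : ℕ) : ℤ) - (H : ℤ) = i := by
    rw [Int.toNat_of_nonneg h0]; ring
  have h3 := hs ⟨(i + H).toNat, h1⟩
  have h4 := hw ⟨(i + H).toNat, h1⟩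
  simp only [h2] at h3 h4
  rw [h3, h4]

/-- the vector valued version of the uniform orthogonality -/
theorem vec {A : Type} [CStarAlgebra A] (g : ℕ → ZMod r) (hg : Uni g) (K : ℕ) (M ε : ℝ)
    (hM : 0 < M) (hε : 0 < ε) : ∃ N₀ : ℕ, ∀ N : ℕ, N₀ ≤ N → ∀ (c : ℕ) (β : ℝ)
    (Ψ : (Fin K → ZMod r) → A), (∀ v, ‖Ψ v‖ ≤ M) →
    ‖∑ n ∈ Ioc 0 N, (((ArithmeticFunction.moebius n : ℤ) : ℂ) * ee (n * β)) •
      Ψ (fun i => g (n + c + i))‖ ≤ ε * N := by
  classical
  set R : ℝ := (Fintype.card (Fin K → ZMod r) : ℝ) with hR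
  have hRpos : 0 < R := by
    rw [hR]
    exact_mod_cast Fintype.card_pos
  obtain ⟨N₀, hN₀⟩ := hg K (ε / (R * M)) (by positivity)
  refine ⟨N₀, fun N hN c β Ψ hΨ => ?_⟩
  have key : ∑ n ∈ Ioc 0 N, (((ArithmeticFunction.moebius n : ℤ) : ℂ) * ee (n * β)) •
      Ψ (fun i => g (n + c + i)) =
      ∑ v : Fin K → ZMod r, (∑ n ∈ Ioc 0 N, ((ArithmeticFunction.moebius n : ℤ) : ℂ) * ee (n * β) *
        (if (fun i : Fin K => g (n + c + i)) = v then 1 else 0)) • Ψ v := by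
    simp_rw [Finset.sum_smul]
    rw [Finset.sum_comm]
    refine Finset.sum_congr rfl fun n _ => ?_
    rw [Finset.sum_eq_single (fun i : Fin K => g (n + c + i))]
    · rw [if_pos rfl, mul_one]
    · intro v _ hv
      rw [if_neg (Ne.symm hv), mul_zero, zero_smul]
    · intro h
      exact absurd (Finset.mem_univ _) h
  rw [key]
  have h1 : ∀ v ∈ (Finset.univ : Finset (Fin K → ZMod r)),
      ‖(∑ n ∈ Ioc 0 N, ((ArithmeticFunction.moebius n : ℤ) : ℂ) * ee (n * β) *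
        (if (fun i : Fin K => g (n + c + i)) = v then 1 else 0)) • Ψ v‖ ≤ ε / (R * M) * N * M := by
    intro v _
    rw [norm_smul]
    have h2 := hN₀ N hN c β (fun u => if u = v then 1 else 0) (fun u => by
      by_cases h : u = v
      · rw [if_pos h, norm_one]
      · rw [if_neg h, norm_zero]; exact zero_le_one)
    exact mul_le_mul h2 (hΨ v) (norm_nonneg _) (by positivity)
  refine (norm_sum_le_of_le _ h1).trans ?_
  rw [Finset.sum_const, nsmul_eq_mul, Finset.card_univ, ← hR]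
  apply le_of_eq
  field_simp

theorem tele (g : ℕ → ZMod r) (c M : ℕ) (y : ℤ → ZMod r) (n : ℕ) (hn : n ≤ M)
    (hy : ∀ i : ℤ, |i| ≤ M → y i = g ((c + i).toNat + 1) - g (c + i).toNat) :
    ∑ i ∈ range n, y (i : ℤ) = g (c + n) - g c := by
  induction n with
  | zero => simp
  | succ n ih =>
    rw [Finset.sum_range_succ, ih (by omega), hy (n : ℤ) (by rw [abs_of_nonneg (by positivity)]; omega)]
    have : ((c : ℤ) + (n : ℤ)).toNat = c + n := by omega
    rw [this, add_assoc c n 1]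
    ring

end CstX

open CstX in
theorem cst : CST := by
  intro r _ g hg A _ θ hθ α hα F ε hε
  obtain ⟨H, hH⟩ := approx g F (ε / 2) (by positivity)
  obtain ⟨N₀, hN₀⟩ := vec (A := A) g hg (2 * H + 2) (‖F‖ + 1) (ε / 2) (by positivity) (by positivity)
  refine ⟨N₀, fun N hN β => ?_⟩
  have hpos : 0 ≤ ε * N := by positivity
  rw [ContinuousMap.norm_le _ hpos]
  intro y
  rw [ContinuousMap.coe_sum, Finset.sum_apply]
  simp only [ContinuousMap.smul_apply]
  obtain ⟨c', hc', hy⟩ := y.2 (H + N)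
  set Ψ : (Fin (2 * H + 2) → ZMod r) → A := fun v =>
    (⇑θ)^[(v ⟨H, by omega⟩ - g c').val] (val g F H (fun i : Fin (2 * H + 1) =>
      v ⟨i + 1, by omega⟩ - v ⟨i, by omega⟩)) with hΨ
  have hΨn : ∀ v, ‖Ψ v‖ ≤ ‖F‖ + 1 := by
    intro v
    rw [hΨ]
    simp only
    rw [iter_norm]
    exact (val_norm g F H _).trans (by linarith)
  have h1 := hN₀ N hN (c' - H) β Ψ hΨn
  have h2 : ∀ n ∈ Ioc 0 N, ‖(((ArithmeticFunction.moebius n : ℤ) : ℂ) * ee (n * β)) • (α^[n] F) y -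
      (((ArithmeticFunction.moebius n : ℤ) : ℂ) * ee (n * β)) • Ψ (fun i => g (n + (c' - H) + i))‖ ≤
      ε / 2 := by
    intro n hn
    have hn' := (Finset.mem_Ioc.1 hn).2
    rw [← smul_sub, norm_smul, norm_mul, ee_norm, mul_one]
    have h3 : ‖(α^[n] F) y - Ψ (fun i => g (n + (c' - H) + i))‖ ≤ ε / 2 := by
      rw [alpha_iter g θ hθ α hα F n y, tele g c' (H + N) y.1 n (by omega) hy]
      rw [hΨ]
      simp only
      have e1 : n + (c' - H) + H = c' + n := by omega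
      rw [e1, ← iter_sub, iter_norm]
      apply val_near g F H (ε / 2) hH
      intro i
      show y.1 (((i : ℕ) : ℤ) - (H : ℤ) + (n : ℤ)) = _
      have hi := i.2
      rw [hy _ (by rw [abs_le]; constructor <;> push_cast <;> omega)]
      have e2 : ((c' : ℤ) + (((i : ℕ) : ℤ) - (H : ℤ) + (n : ℤ))).toNat = n + (c' - H) + i := by omega
      rw [e2, add_assoc _ (i : ℕ) 1]
    calc _ ≤ 1 * (ε / 2) := mul_le_mul (mu_le n) h3 (norm_nonneg _) zero_le_one
      _ = ε / 2 := one_mul _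
  have h4 : ‖∑ n ∈ Ioc 0 N, (((ArithmeticFunction.moebius n : ℤ) : ℂ) * ee (n * β)) • (α^[n] F) y -
      ∑ n ∈ Ioc 0 N, (((ArithmeticFunction.moebius n : ℤ) : ℂ) * ee (n * β)) •
        Ψ (fun i => g (n + (c' - H) + i))‖ ≤ N * (ε / 2) := by
    rw [← Finset.sum_sub_distrib]
    refine (norm_sum_le_of_le _ h2).trans ?_
    rw [Finset.sum_const, Nat.card_Ioc, Nat.sub_zero, nsmul_eq_mul]
  have h5 := norm_add_le (∑ n ∈ Ioc 0 N, (((ArithmeticFunction.moebius n : ℤ) : ℂ) * ee (n * β)) •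
    (α^[n] F) y - ∑ n ∈ Ioc 0 N, (((ArithmeticFunction.moebius n : ℤ) : ℂ) * ee (n * β)) •
        Ψ (fun i => g (n + (c' - H) + i)))
    (∑ n ∈ Ioc 0 N, (((ArithmeticFunction.moebius n : ℤ) : ℂ) * ee (n * β)) •
        Ψ (fun i => g (n + (c' - H) + i)))
  rw [sub_add_cancel] at h5
  calc _ ≤ _ := h5
    _ ≤ N * (ε / 2) + ε / 2 * N := add_le_add h4 h1
    _ = ε * N := by ring

end Pool.Agent.N213.CM
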