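import Mathlib
import Pool.Agent.N213.CM.Stm2

/-! # Project CM: norm convergence with a commuting automorphism with discrete spectrum
(leaf CM/CSTG, helper701) -/

set_option autoImplicit false

namespace Pool.Agent.N213.CM

open Finset Filter Topology

namespace CstGX

theorem mu_le (n : ℕ) : ‖((ArithmeticFunction.moebius n : ℤ) : ℂ)‖ ≤ 1 := by
  rw [Complex.norm_intCast]
  exact_mod_cast ArithmeticFunction.abs_moebius_le_one

theorem ee_norm (x : ℝ) : ‖ee x‖ = 1 := by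
  unfold ee
  have : (2 * Real.pi * Complex.I * x : ℂ) = ((2 * Real.pi * x : ℝ) : ℂ) * Complex.I := by
    push_cast; ring
  rw [this, Complex.norm_exp_ofReal_mul_I]

theorem ee_pow_mul (n : ℕ) (β b : ℝ) : ee (n * β) * ee b ^ n = ee (n * (β + b)) := by
  unfold ee
  rw [← Complex.exp_nat_mul, ← Complex.exp_add]
  congr 1
  push_cast
  ring

theorem ex_ee {l : ℂ} (hl : ‖l‖ = 1) : ∃ b : ℝ, l = ee b := by
  obtain ⟨θ, hθ⟩ := (Complex.norm_eq_one_iff l).1 hl
  refine ⟨θ / (2 * Real.pi), ?_⟩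
  rw [← hθ]
  unfold ee
  congr 1
  have : (Real.pi : ℂ) ≠ 0 := by exact_mod_cast Real.pi_ne_zero
  push_cast
  field_simp

section

variable {r : ℕ} [NeZero r] {A : Type} [CStarAlgebra A]

theorem it_add (θ : A ≃⋆ₐ[ℂ] A) (k : ℕ) (a b : A) :
    (⇑θ)^[k] (a + b) = (⇑θ)^[k] a + (⇑θ)^[k] b := by
  induction k generalizing a b with
  | zero => rfl
  | succ k ih =>
    rw [Function.iterate_succ_apply, Function.iterate_succ_apply, Function.iterate_succ_apply,
      map_add, ih]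

theorem it_smul (θ : A ≃⋆ₐ[ℂ] A) (k : ℕ) (c : ℂ) (a : A) :
    (⇑θ)^[k] (c • a) = c • (⇑θ)^[k] a := by
  induction k generalizing a with
  | zero => rfl
  | succ k ih =>
    rw [Function.iterate_succ_apply, Function.iterate_succ_apply, map_smul, ih]

theorem it_comm (θ γ : A ≃⋆ₐ[ℂ] A) (h : ∀ a, θ (γ a) = γ (θ a)) (k : ℕ) (a : A) :
    (⇑θ)^[k] (γ a) = γ ((⇑θ)^[k] a) := by
  induction k generalizing a with
  | zero => rfl
  | succ k ih =>
    rw [Function.iterate_succ_apply, Function.iterate_succ_apply, h, ih]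

theorem it_norm (θ : A ≃⋆ₐ[ℂ] A) (k : ℕ) (a : A) : ‖(⇑θ)^[k] a‖ = ‖a‖ := by
  induction k generalizing a with
  | zero => rfl
  | succ k ih =>
    rw [Function.iterate_succ_apply, ih]
    exact StarAlgEquiv.norm_map θ a

variable {g : ℕ → ZMod r} {θ γ : A ≃⋆ₐ[ℂ] A} {α : C(Y g, A) → C(Y g, A)}

/-- the conclusion -/
def P (α : C(Y g, A) → C(Y g, A)) (F : C(Y g, A)) : Prop :=
  ∀ ε : ℝ, 0 < ε → ∃ N₀ : ℕ, ∀ N : ℕ, N₀ ≤ N → ∀ β : ℝ,
  ‖∑ n ∈ Ioc 0 N, (((ArithmeticFunction.moebius n : ℤ) : ℂ) * ee (n * β)) • (α^[n] F)‖ ≤ ε * N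

theorem al_add (hα : ∀ (F : C(Y g, A)) (y : Y g), α F y = γ ((⇑θ)^[(y.1 0).val] (F (S g 1 y))))
    (F G : C(Y g, A)) : α (F + G) = α F + α G := by
  ext y
  rw [ContinuousMap.add_apply, hα, hα, hα, ContinuousMap.add_apply, it_add, map_add]

theorem al_norm (hα : ∀ (F : C(Y g, A)) (y : Y g), α F y = γ ((⇑θ)^[(y.1 0).val] (F (S g 1 y))))
    (F : C(Y g, A)) : ‖α F‖ ≤ ‖F‖ := by
  rw [ContinuousMap.norm_le _ (norm_nonneg _)]
  intro y
  rw [hα, StarAlgEquiv.norm_map, it_norm]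
  exact F.norm_coe_le_norm _

theorem ali_add (hadd : ∀ F G : C(Y g, A), α (F + G) = α F + α G) (n : ℕ) (F G : C(Y g, A)) :
    α^[n] (F + G) = α^[n] F + α^[n] G := by
  induction n generalizing F G with
  | zero => rfl
  | succ n ih =>
    rw [Function.iterate_succ_apply, Function.iterate_succ_apply, Function.iterate_succ_apply,
      hadd, ih]

theorem ali_norm (hno : ∀ F : C(Y g, A), ‖α F‖ ≤ ‖F‖) (n : ℕ) (F : C(Y g, A)) :
    ‖α^[n] F‖ ≤ ‖F‖ := by
  induction n generalizing F with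
  | zero => exact le_rfl
  | succ n ih =>
    rw [Function.iterate_succ_apply]
    exact (ih _).trans (hno F)

theorem P_zero (hadd : ∀ F G : C(Y g, A), α (F + G) = α F + α G) : P α (0 : C(Y g, A)) := by
  intro ε hε
  refine ⟨0, fun N _ β => ?_⟩
  have h0 : ∀ n, α^[n] (0 : C(Y g, A)) = 0 := by
    intro n
    have h := ali_add hadd n 0 0
    rw [add_zero] at h
    exact left_eq_add.1 h
  rw [sum_eq_zero (fun n _ => by rw [h0, smul_zero]), norm_zero]
  positivity

theorem P_add (hadd : ∀ F G : C(Y g, A), α (F + G) = α F + α G) {F G : C(Y g, A)} (hF : P α F)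
    (hG : P α G) : P α (F + G) := by
  intro ε hε
  obtain ⟨N1, h1⟩ := hF (ε / 2) (by positivity)
  obtain ⟨N2, h2⟩ := hG (ε / 2) (by positivity)
  refine ⟨max N1 N2, fun N hN β => ?_⟩
  have e : ∑ n ∈ Ioc 0 N, (((ArithmeticFunction.moebius n : ℤ) : ℂ) * ee (n * β)) •
      (α^[n] (F + G)) =
      (∑ n ∈ Ioc 0 N, (((ArithmeticFunction.moebius n : ℤ) : ℂ) * ee (n * β)) • (α^[n] F)) +
      ∑ n ∈ Ioc 0 N, (((ArithmeticFunction.moebius n : ℤ) : ℂ) * ee (n * β)) • (α^[n] G) := by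
    rw [← sum_add_distrib]
    refine sum_congr rfl fun n _ => ?_
    rw [ali_add hadd, smul_add]
  rw [e]
  refine (norm_add_le _ _).trans ?_
  have h3 := h1 N (le_trans (le_max_left _ _) hN) β
  have h4 := h2 N (le_trans (le_max_right _ _) hN) β
  linarith

theorem P_clo (hadd : ∀ F G : C(Y g, A), α (F + G) = α F + α G)
    (hno : ∀ F : C(Y g, A), ‖α F‖ ≤ ‖F‖) {F : C(Y g, A)}
    (h : ∀ ε : ℝ, 0 < ε → ∃ G : C(Y g, A), P α G ∧ ‖F - G‖ ≤ ε) : P α F := by
  intro ε hε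
  obtain ⟨G, hG, hFG⟩ := h (ε / 2) (by positivity)
  obtain ⟨N1, h1⟩ := hG (ε / 2) (by positivity)
  refine ⟨N1, fun N hN β => ?_⟩
  have e : ∑ n ∈ Ioc 0 N, (((ArithmeticFunction.moebius n : ℤ) : ℂ) * ee (n * β)) •
      (α^[n] F) =
      (∑ n ∈ Ioc 0 N, (((ArithmeticFunction.moebius n : ℤ) : ℂ) * ee (n * β)) • (α^[n] G)) +
      ∑ n ∈ Ioc 0 N, (((ArithmeticFunction.moebius n : ℤ) : ℂ) * ee (n * β)) •
        (α^[n] (F - G)) := by
    rw [← sum_add_distrib]
    refine sum_congr rfl fun n _ => ?_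
    rw [← smul_add, ← ali_add hadd, add_sub_cancel]
  rw [e]
  refine (norm_add_le _ _).trans ?_
  have h3 := h1 N hN β
  have h4 : ‖∑ n ∈ Ioc 0 N, (((ArithmeticFunction.moebius n : ℤ) : ℂ) * ee (n * β)) •
        (α^[n] (F - G))‖ ≤ ∑ _n ∈ Ioc 0 N, (ε / 2) := by
    refine (norm_sum_le _ _).trans (sum_le_sum fun n _ => ?_)
    rw [norm_smul, norm_mul, ee_norm, mul_one]
    calc _ ≤ 1 * ‖α^[n] (F - G)‖ := mul_le_mul_of_nonneg_right (mu_le n) (norm_nonneg _)
      _ = ‖α^[n] (F - G)‖ := one_mul _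
      _ ≤ ‖F - G‖ := ali_norm hno n _
      _ ≤ ε / 2 := hFG
  rw [sum_const, Nat.card_Ioc, nsmul_eq_mul, Nat.sub_zero] at h4
  linarith

/-- values in an eigenspace -/
theorem P_eig (hcst : CST) (hal : ALPHA) (hg : Uni g) (hθ : ∀ a, (⇑θ)^[r] a = a)
    (hcomm : ∀ a, θ (γ a) = γ (θ a))
    (hα : ∀ (F : C(Y g, A)) (y : Y g), α F y = γ ((⇑θ)^[(y.1 0).val] (F (S g 1 y))))
    (F : C(Y g, A)) (l : ℂ) (hF : ∀ y, γ (F y) = l • F y) : P α F := by
  have hadd := al_add hα
  by_cases hF0 : F = 0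
  · rw [hF0]
    exact P_zero hadd
  obtain ⟨α0, hα0⟩ := hal r g A θ hθ
  -- the norm of `l`
  have hl : ‖l‖ = 1 := by
    obtain ⟨y, hy⟩ : ∃ y, F y ≠ 0 := by
      by_contra h
      push Not at h
      exact hF0 (ContinuousMap.ext h)
    have h1 : ‖γ (F y)‖ = ‖F y‖ := StarAlgEquiv.norm_map γ _
    rw [hF y, norm_smul] at h1
    have h2 : 0 < ‖F y‖ := norm_pos_iff.2 hy
    exact mul_right_cancel₀ h2.ne' (h1.trans (one_mul _).symm)
  obtain ⟨b, hb⟩ := ex_ee hl
  -- the iterates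
  have hit : ∀ n, (∀ y, γ ((⇑α0)^[n] F y) = l • (⇑α0)^[n] F y) ∧
      α^[n] F = l ^ n • (⇑α0)^[n] F := by
    intro n
    induction n with
    | zero =>
      refine ⟨hF, ?_⟩
      rw [pow_zero, one_smul]
      rfl
    | succ n ih =>
      obtain ⟨ih1, ih2⟩ := ih
      refine ⟨fun y => ?_, ?_⟩
      · rw [Function.iterate_succ_apply', hα0, ← it_comm θ γ hcomm, ih1, it_smul]
      · rw [Function.iterate_succ_apply', Function.iterate_succ_apply', ih2]
        ext y
        rw [hα, ContinuousMap.smul_apply, ContinuousMap.smul_apply, hα0, it_smul, map_smul,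
          ← it_comm θ γ hcomm, ih1, it_smul, smul_smul, pow_succ]
  intro ε hε
  obtain ⟨N0, hN0⟩ := hcst r g hg A θ hθ α0 hα0 F ε hε
  refine ⟨N0, fun N hN β => ?_⟩
  have h := hN0 N hN (β + b)
  have e : ∑ n ∈ Ioc 0 N, (((ArithmeticFunction.moebius n : ℤ) : ℂ) * ee (n * β)) •
      (α^[n] F) = ∑ n ∈ Ioc 0 N, (((ArithmeticFunction.moebius n : ℤ) : ℂ) * ee (n * (β + b))) •
      ((⇑α0)^[n] F) := by
    refine sum_congr rfl fun n _ => ?_
    rw [(hit n).2, smul_smul, mul_assoc, hb, ee_pow_mul]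
  rw [e]
  exact h

/-- the function equal to `b` on the set `u = i` -/
noncomputable def ind {k : ℕ} (u : C(Y g, Fin k)) (i : Fin k) (b : A) : C(Y g, A) :=
  (⟨fun j => if j = i then b else 0, continuous_of_discreteTopology⟩ : C(Fin k, A)).comp u

theorem ind_apply {k : ℕ} (u : C(Y g, Fin k)) (i : Fin k) (b : A) (y : Y g) :
    ind u i b y = if u y = i then b else 0 := rfl

theorem P_ind (hcst : CST) (hal : ALPHA) (hg : Uni g) (hθ : ∀ a, (⇑θ)^[r] a = a)
    (hcomm : ∀ a, θ (γ a) = γ (θ a))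
    (hα : ∀ (F : C(Y g, A)) (y : Y g), α F y = γ ((⇑θ)^[(y.1 0).val] (F (S g 1 y))))
    {k : ℕ} (u : C(Y g, Fin k)) (i : Fin k) (b : A)
    (hb : b ∈ Submodule.span ℂ {v : A | ∃ l : ℂ, γ v = l • v}) : P α (ind u i b) := by
  have hadd := al_add hα
  have eig : ∀ (v : A) (l : ℂ), γ v = l • v → P α (ind u i v) := by
    intro v l hv
    refine P_eig hcst hal hg hθ hcomm hα _ l fun y => ?_
    rw [ind_apply]
    split_ifs
    · exact hv
    · rw [map_zero, smul_zero]
  -- closure under scalars is part of the induction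
  have key : ∀ c : ℂ, P α (ind u i (c • b)) := by
    induction hb using Submodule.span_induction with
    | mem v hv =>
      obtain ⟨l, hl⟩ := hv
      intro c
      refine eig _ l ?_
      rw [map_smul, hl, smul_comm]
    | zero =>
      intro c
      refine eig _ 1 ?_
      rw [smul_zero, map_zero, smul_zero]
    | add v w _ _ h1 h2 =>
      intro c
      have e : ind u i (c • (v + w)) = ind u i (c • v) + ind u i (c • w) := by
        ext y
        rw [ContinuousMap.add_apply, ind_apply, ind_apply, ind_apply]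
        split_ifs
        · rw [smul_add]
        · rw [add_zero]
      rw [e]
      exact P_add hadd (h1 c) (h2 c)
    | smul d v _ h1 =>
      intro c
      rw [smul_smul]
      exact h1 (c * d)
  have := key 1
  rwa [one_smul] at this

theorem P_sum (hadd : ∀ F G : C(Y g, A), α (F + G) = α F + α G) {ι : Type} (s : Finset ι)
    (f : ι → C(Y g, A)) (h : ∀ i ∈ s, P α (f i)) : P α (∑ i ∈ s, f i) := by
  classical
  induction s using Finset.induction_on with
  | empty =>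
    rw [sum_empty]
    exact P_zero hadd
  | insert a s ha ih =>
    rw [sum_insert ha]
    exact P_add hadd (h a (mem_insert_self a s)) (ih fun i hi => h i (mem_insert_of_mem hi))

end

end CstGX

open CstGX in
/-- CM/CSTG -/
theorem cstg : CST → ALPHA → CSTG := by
  intro hcst hal r _ g hg A _ θ γ hθ hcomm hds α hα F
  have hadd := al_add hα
  change P α F
  refine P_clo hadd (al_norm hα) fun ε hε => ?_
  have hS : {p : A × A | dist p.1 p.2 < ε / 2} ∈ nhdsSet (Set.diagonal A) := by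
    rw [mem_nhdsSet_iff_forall]
    rintro ⟨x, y⟩ (rfl : x = y)
    have h1 : IsOpen {p : A × A | dist p.1 p.2 < ε / 2} :=
      isOpen_lt (continuous_fst.dist continuous_snd) continuous_const
    exact h1.mem_nhds (by simp [hε])
  obtain ⟨k, u, h, hu, huh⟩ :=
    ContinuousMap.exists_finite_approximation_of_mem_nhds_diagonal F hS
  have hb : ∀ i, ∃ b ∈ Submodule.span ℂ {v : A | ∃ l : ℂ, γ v = l • v}, ‖h i - b‖ < ε / 2 :=
    fun i => hds (h i) (ε / 2) (by positivity)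
  choose b hb1 hb2 using hb
  refine ⟨∑ i, ind ⟨u, hu⟩ i (b i), P_sum hadd _ _ fun i _ =>
    P_ind hcst hal hg hθ hcomm hα _ i (b i) (hb1 i), ?_⟩
  rw [ContinuousMap.norm_le _ hε.le]
  intro y
  have e : (∑ i, ind ⟨u, hu⟩ i (b i)) y = b (u y) := by
    rw [ContinuousMap.sum_apply]
    simp only [ind_apply]
    rw [Finset.sum_ite_eq]
    simp
  rw [ContinuousMap.sub_apply, e]
  have h1 : dist (F y) (h (u y)) < ε / 2 := huh y
  have h2 := hb2 (u y)
  rw [dist_eq_norm] at h1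
  calc ‖F y - b (u y)‖ = ‖(F y - h (u y)) + (h (u y) - b (u y))‖ := by rw [sub_add_sub_cancel]
    _ ≤ ‖F y - h (u y)‖ + ‖h (u y) - b (u y)‖ := norm_add_le _ _
    _ ≤ ε := by linarith

end Pool.Agent.N213.CM
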