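import Mathlib
import Pool.Agent.N213.CM.Stm

/-! # Project CM, HYP: bounded radices (helper128) -/

set_option autoImplicit false

namespace Pool.Agent.N213.CM

open Finset
open Pool.Agent.N213.BM (Sc)

namespace HypX

lemma pos {L : ℕ → ℕ} (hS : Sc L) (t : ℕ) : 0 < L t := by
  induction t with
  | zero => rw [hS.zero]; exact one_pos
  | succ t ih =>
    obtain ⟨l, hl, h⟩ := hS.step t
    rw [h]
    exact Nat.mul_pos (by omega) ih

lemma g0 {r : ℕ} {L : ℕ → ℕ} {g : ℕ → ZMod r} (hS : Sc L) (hD : Dig L g) : g 0 = 0 := by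
  have h := hD 0 0 0 (by rw [hS.zero]; exact one_pos)
  rw [mul_zero, add_zero] at h
  exact left_eq_add.1 h

end HypX

open HypX

theorem hypm : HYPM := by
  intro r L g hS hD hKex
  obtain ⟨K, hK⟩ := hKex
  by_cases h1 : ∃ T, ∀ t, T ≤ t → Reg L g t
  · exact Or.inl h1
  push Not at h1
  refine Or.inr ⟨1 / ((K : ℝ) ^ 2 + 1), by positivity, fun T => ?_⟩
  obtain ⟨t, ht, hreg⟩ := h1 T
  obtain ⟨a, ha2, ha⟩ := hS.step t
  obtain ⟨b, hb2, hb⟩ := hS.step (t + 1)
  have hp := pos hS t
  refine ⟨t, t + 2, ht, by omega, ?_⟩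
  have hn : L (t + 2) / L t = b * a := by
    have e : L (t + 2) = b * a * L t := by
      rw [show t + 2 = t + 1 + 1 from rfl, hb, ha, mul_assoc]
    rw [e, Nat.mul_div_cancel _ hp]
  rw [hn]
  have hKa : a ≤ K := by
    have h := hK t
    rw [ha] at h
    exact le_of_mul_le_mul_right h hp
  have hKb : b ≤ K := by
    have h := hK (t + 1)
    rw [hb] at h
    exact le_of_mul_le_mul_right h (pos hS (t + 1))
  have hba : a + 2 ≤ b * a := by
    have : 2 * a ≤ b * a := Nat.mul_le_mul_right a hb2
    omega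
  intro c
  have claim : ∃ z ∈ range (b * a - 1), g (L t * (z + 1)) - g (L t * z) ≠ c := by
    by_contra hcon
    push Not at hcon
    apply hreg
    have key : ∀ d, d ≤ b * a - 1 → g (L t * d) = (d : ZMod r) * c := by
      intro d
      induction d with
      | zero =>
        intro _
        rw [mul_zero, g0 hS hD, Nat.cast_zero, zero_mul]
      | succ d ih =>
        intro hd
        have h2 := hcon d (mem_range.2 (by omega))
        have h3 := ih (by omega)
        push_cast
        linear_combination h2 + h3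
    have hc : g (L t) = c := by
      have h2 := key 1 (by omega)
      rw [mul_one, Nat.cast_one, one_mul] at h2
      exact h2
    intro d hd
    rw [ha] at hd
    have hda : d ≤ a := le_of_mul_le_mul_right hd hp
    rw [hc]
    exact key d (by omega)
  obtain ⟨z, hz, hzc⟩ := claim
  have hcard : 1 ≤ ((range (b * a - 1)).filter
      (fun z => g (L t * (z + 1)) - g (L t * z) ≠ c)).card :=
    Finset.card_pos.2 ⟨z, mem_filter.2 ⟨hz, hzc⟩⟩
  have h2 : (1 : ℝ) ≤ (((range (b * a - 1)).filter
      (fun z => g (L t * (z + 1)) - g (L t * z) ≠ c)).card : ℝ) := by exact_mod_cast hcard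
  refine le_trans ?_ h2
  have h3 : ((b * a : ℕ) : ℝ) ≤ (K : ℝ) ^ 2 + 1 := by
    have h4 : b * a ≤ K ^ 2 := by
      rw [pow_two]
      exact Nat.mul_le_mul hKb hKa
    have h5 : ((b * a : ℕ) : ℝ) ≤ ((K ^ 2 : ℕ) : ℝ) := by exact_mod_cast h4
    push_cast at h5 ⊢
    linarith
  rw [one_div, inv_mul_le_iff₀ (by positivity), mul_one]
  exact h3

end Pool.Agent.N213.CM
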