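import Pool.Agent.N213.CM.Stm
import Pool.Agent.N213.BM.Main2
import Pool.Agent.N213.BM.Step

/-! # Project CM: the main theorem -/

set_option autoImplicit false

namespace Pool.Agent.N213.CM

open Finset Filter Topology
open Pool.Agent.N213.BM (Sc Dec kat_blocks kf_mu step)
open Pool.Agent.W208.TL (KF KAT)

theorem ee_zero : ee 0 = 1 := by simp [ee]

theorem ee_add (x y : ℝ) : ee (x + y) = ee x * ee y := by
  unfold ee
  rw [← Complex.exp_add]
  congr 1
  push_cast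
  ring

theorem norm_ee (x : ℝ) : ‖ee x‖ = 1 := by
  unfold ee
  have : 2 * (Real.pi : ℂ) * Complex.I * (x : ℂ) = ((2 * Real.pi * x : ℝ) : ℂ) * Complex.I := by
    push_cast; ring
  rw [this]
  exact Complex.norm_exp_ofReal_mul_I _

theorem star_ee (x : ℝ) : star (ee x) = ee (-x) := by
  have h : ee x * ee (-x) = 1 := by rw [← ee_add, add_neg_cancel, ee_zero]
  have h2 : ee x * star (ee x) = 1 := by
    have := Complex.mul_conj (ee x)
    rw [Complex.normSq_eq_norm_sq, norm_ee] at this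
    simpa using this
  have h3 : ee x ≠ 0 := by
    intro h0
    have := norm_ee x
    rw [h0, norm_zero] at this
    exact zero_ne_one this
  exact mul_left_cancel₀ h3 (h2.trans h.symm)

variable {r : ℕ} [NeZero r]

theorem norm_chi (a : ZMod r) : ‖(ZMod.stdAddChar a : ℂ)‖ = 1 := by
  exact AddChar.norm_apply _ _

theorem star_chi (a : ZMod r) : star (ZMod.stdAddChar a : ℂ) = ZMod.stdAddChar (-a) := by
  rw [AddChar.map_neg_eq_conj]
  rfl

theorem chi_add (a b : ZMod r) : (ZMod.stdAddChar (a + b) : ℂ) = ZMod.stdAddChar a * ZMod.stdAddChar b :=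
  AddChar.map_add_eq_mul _ _ _

/-- a window -/
def Win (L : ℕ → ℕ) (g : ℕ → ZMod r) (p q T : ℕ) (η : ℝ) (S₀ : ℕ) : Prop :=
  ∃ lo mid hi M R : ℕ, S₀ ≤ lo ∧ T ≤ mid ∧ lo ≤ mid ∧ L mid = L lo * M ∧ L hi = L mid * R ∧
    8 * (q + 1) ≤ M ∧
    ∀ (ep eq : ℕ) (β : ℝ), ‖∑ x ∈ range R, ZMod.stdAddChar (g (L mid * (p * x + ep)) -
      g (L mid * (q * x + eq))) * ee (x * β)‖ ≤ (1 - η) * R

/-- the correlation -/
noncomputable def cor (g : ℕ → ZMod r) (ψ : ℕ → ℂ) (p q c : ℕ) (β : ℝ) (n : ℕ) : ℂ :=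
  (ee ((p * n : ℕ) * β) * (ψ (p * n + c) * ZMod.stdAddChar (g (p * n + c)))) *
    star (ee ((q * n : ℕ) * β) * (ψ (q * n + c) * ZMod.stdAddChar (g (q * n + c))))

theorem cor_eq (g : ℕ → ZMod r) (ψ : ℕ → ℂ) (p q c : ℕ) (β : ℝ) (n : ℕ) : cor g ψ p q c β n =
    ee (((p : ℝ) - q) * n * β) * (ψ (p * n + c) * star (ψ (q * n + c))) *
      ZMod.stdAddChar (g (p * n + c) - g (q * n + c)) := by
  unfold cor
  rw [star_mul, star_mul, star_ee, star_chi, sub_eq_add_neg (g _), chi_add]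
  have : ((p : ℝ) - q) * n * β = ((p * n : ℕ) : ℝ) * β + -(((q * n : ℕ) : ℝ) * β) := by
    push_cast; ring
  rw [this, ee_add]
  ring

theorem norm_cor (g : ℕ → ZMod r) {ψ : ℕ → ℂ} (hψ1 : ∀ n, ‖ψ n‖ ≤ 1) (p q c : ℕ) (β : ℝ) (n : ℕ) :
    ‖cor g ψ p q c β n‖ ≤ 1 := by
  unfold cor
  rw [norm_mul, norm_star, norm_mul, norm_mul, norm_mul, norm_mul, norm_ee, norm_ee, norm_chi,
    norm_chi, mul_one, mul_one, one_mul, one_mul]
  exact mul_le_one₀ (hψ1 _) (norm_nonneg _) (hψ1 _)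

theorem window (hG : GADM) {L : ℕ → ℕ} (hL : Sc L) {g : ℕ → ZMod r} (hg : Dig L g)
    {p q T : ℕ} (hp : 1 ≤ p) (hpq : p ≤ q) {η : ℝ} (hη : 0 ≤ η) (hη1 : η ≤ 1)
    {ψ : ℕ → ℂ} (hψ : ∀ n, ψ (n + L T) = ψ n) {S₀ : ℕ} (hW : Win L g p q T η S₀) {τ : ℝ}
    (hτ : 0 ≤ τ) : ∃ S₁ : ℕ, ∀ (c : ℕ) (β : ℝ), Dec L (cor g ψ p q c β) S₀ τ →
    Dec L (cor g ψ p q c β) S₁ (τ * (1 - η / 2)) := by
  obtain ⟨lo, mid, hi, M, R, h1, h2, h3, h4, h5, h6, h7⟩ := hW
  refine ⟨hi, fun c β hD => ?_⟩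
  have hD' := hD.mono hL h1
  obtain ⟨A, hA1, hA2, hA3⟩ := hG r L hL g hg p q c lo mid M hp hpq h3 h4 h6
  obtain ⟨k, _, ek⟩ := hL.quot' h2
  have key := step (L lo) M R (cor g ψ p q c β) η τ A hη hη1 hτ hD' hA1 hA2 ?_
  · intro v
    have := key v
    rw [← h4, ← h5] at this
    exact this
  · intro α hα v
    obtain ⟨ep, eq, K, hK⟩ := hA3 α hα
    set Ξ : ℕ → ZMod r := fun X => g (L mid * (p * X + ep)) - g (L mid * (q * X + eq)) with hΞ
    set γ : ℝ := ((p : ℝ) - q) * L mid * β with hγ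
    refine ⟨fun x => ZMod.stdAddChar (Ξ (x + R * v) - Ξ (R * v)) * ee (x * γ), ?_, ?_⟩
    · intro u hu x _
      have e1 : u + L lo * α + L lo * M * x + L lo * M * R * v =
          u + L lo * α + L mid * (x + R * v) := by rw [h4]; ring
      have e2 : u + L lo * α + L lo * M * R * v = u + L lo * α + L mid * (R * v) := by rw [h4]; ring
      have hper : ∀ b X : ℕ, ψ (b * (u + L lo * α + L mid * X) + c) = ψ (b * (u + L lo * α) + c) := by
        intro b X
        have : b * (u + L lo * α + L mid * X) + c = b * (u + L lo * α) + c + L T * (k * (b * X)) := by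
          rw [ek]; ring
        rw [this, Pool.Agent.N213.BM.per_mul hψ]
      have k1 := hK u hu (x + R * v)
      have k2 := hK u hu (R * v)
      have k3 : ((p : ℝ) - q) * ((u + L lo * α + L mid * (x + R * v) : ℕ) : ℝ) * β =
          ((p : ℝ) - q) * ((u + L lo * α + L mid * (R * v) : ℕ) : ℝ) * β + x * γ := by
        rw [hγ]; push_cast; ring
      rw [e1, e2, cor_eq, cor_eq, hper, hper, hper, hper, k1, k2, k3, ee_add]
      have k4 : K u + (g (L mid * (p * (x + R * v) + ep)) - g (L mid * (q * (x + R * v) + eq))) =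
          (K u + (g (L mid * (p * (R * v) + ep)) - g (L mid * (q * (R * v) + eq)))) +
          (Ξ (x + R * v) - Ξ (R * v)) := by
        simp only [hΞ]; ring
      rw [k4, chi_add (K u + _)]
      ring
    · have h8 := h7 (p * (R * v) + ep) (q * (R * v) + eq) γ
      have e : ∑ x ∈ range R, (ZMod.stdAddChar (Ξ (x + R * v) - Ξ (R * v)) : ℂ) * ee (x * γ) =
          ZMod.stdAddChar (-Ξ (R * v)) * ∑ x ∈ range R, ZMod.stdAddChar
            (g (L mid * (p * x + (p * (R * v) + ep))) -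
              g (L mid * (q * x + (q * (R * v) + eq)))) * ee (x * γ) := by
        rw [mul_sum]
        refine sum_congr rfl fun x _ => ?_
        rw [sub_eq_add_neg (Ξ _), chi_add]
        have e3 : Ξ (x + R * v) = g (L mid * (p * x + (p * (R * v) + ep))) -
            g (L mid * (q * x + (q * (R * v) + eq))) := by
          simp only [hΞ]
          congr 3
          · ring
          · ring
        rw [e3]
        ring
      rw [e, norm_mul, norm_chi, one_mul]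
      exact h8

theorem pair_iter (hG : GADM) {L : ℕ → ℕ} (hL : Sc L) {g : ℕ → ZMod r} (hg : Dig L g)
    {p q T : ℕ} (hp : 1 ≤ p) (hpq : p ≤ q) {η : ℝ} (hη : 0 < η) (hη1 : η ≤ 1)
    {ψ : ℕ → ℂ} (hψ : ∀ n, ψ (n + L T) = ψ n) (hψ1 : ∀ n, ‖ψ n‖ ≤ 1)
    (hW : ∀ S₀, Win L g p q T η S₀) (δ : ℝ) (hδ : 0 < δ) :
    ∃ S₀ : ℕ, ∀ (c : ℕ) (β : ℝ) (t : ℕ), ‖∑ x ∈ range (L S₀),
      cor g ψ p q c β (x + L S₀ * t)‖ ≤ δ * L S₀ := by
  have main : ∀ k : ℕ, ∃ S₀ : ℕ, ∀ (c : ℕ) (β : ℝ), Dec L (cor g ψ p q c β) S₀ ((1 - η / 2) ^ k) := by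
    intro k
    induction k with
    | zero =>
      refine ⟨0, fun c β t => ?_⟩
      rw [hL.zero, pow_zero, sum_range_one]
      push_cast
      rw [mul_one]
      exact norm_cor g hψ1 _ _ _ _ _
    | succ k ih =>
      obtain ⟨S₀, h⟩ := ih
      obtain ⟨S₁, h1⟩ := window hG hL hg hp hpq hη.le hη1 hψ (hW S₀)
        (τ := (1 - η / 2) ^ k) (by apply pow_nonneg; linarith)
      refine ⟨S₁, fun c β => ?_⟩
      rw [pow_succ]
      exact h1 c β (h c β)
  obtain ⟨k, hk⟩ := exists_pow_lt_of_lt_one hδ (show 1 - η / 2 < 1 by linarith)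
  obtain ⟨S₀, h⟩ := main k
  exact ⟨S₀, fun c β t => (h c β t).trans (mul_le_mul_of_nonneg_right hk.le (Nat.cast_nonneg _))⟩

theorem win_mix (hR : RIGM) {L : ℕ → ℕ} (hL : Sc L) {g : ℕ → ZMod r} (hg : Dig L g) {δ : ℝ}
    (hδ : 0 < δ) (hM : ∀ T, ∃ s t, T ≤ s ∧ s ≤ t ∧ Mixed δ g (L s) (L t / L s)) (T : ℕ)
    {p q : ℕ} (hp : p.Prime) (hq : q.Prime) (hpq : p ≠ q) (hp3 : 3 ≤ p) (hq3 : 3 ≤ q)
    (h2 : 2 ≤ δ * (p * q)) : ∃ η : ℝ, 0 < η ∧ η ≤ 1 ∧ ∀ S₀, Win L g p q T η S₀ := by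
  obtain ⟨η, D, hη, hη1, hRA⟩ := hR r p q δ hp hq hpq hp3 hq3 hδ h2
  refine ⟨η, hη, hη1, fun S₀ => ?_⟩
  obtain ⟨t, t', ht, htt, hmix⟩ := hM (S₀ + T + (8 * (q + 1)) + D)
  set mid := S₀ + T + 8 * (q + 1) with hmid
  have hpow : ∀ n : ℕ, n ≤ 2 ^ n := fun n => (Nat.lt_two_pow_self (n := n)).le
  obtain ⟨M, hM1, eM⟩ := hL.quot' (j := S₀) (j' := mid) (by omega)
  obtain ⟨m, hm1, em⟩ := hL.quot' (j := mid) (j' := t) (by omega)
  obtain ⟨n, hn1, en⟩ := hL.quot' (j := t) (j' := t') htt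
  obtain ⟨N, hN1, eN⟩ := hL.quot' (j := t') (j' := t' + D) (by omega)
  have hLt := hL.pos t
  have hLm := hL.pos mid
  have hn : L t' / L t = n := by rw [en]; exact Nat.mul_div_cancel_left _ hLt
  rw [hn] at hmix
  have hm : D ≤ m := (hpow D).trans ((Nat.pow_le_pow_right (by norm_num) (by omega)).trans hm1)
  have hN : D ≤ N := (hpow D).trans ((Nat.pow_le_pow_right (by norm_num) (by omega)).trans hN1)
  have hn1' : 1 ≤ n := le_trans Nat.one_le_two_pow hn1
  refine ⟨S₀, mid, t' + D, M, m * n * N, le_rfl, by omega, by omega, eM, ?_, ?_, ?_⟩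
  · rw [eN, en, em]; ring
  · exact (hpow _).trans ((Nat.pow_le_pow_right (by norm_num) (by omega)).trans hM1)
  · refine hRA m n N (fun k => g (L mid * k)) hm hn1' hN ?_ ?_ ?_
    · intro l h hl
      have := hg t (L mid * l) h (by rw [em]; exact Nat.mul_lt_mul_of_pos_left hl hLm)
      show g (L mid * (l + m * h)) = g (L mid * l) + g (L mid * (m * h))
      rw [em] at this
      rw [mul_add, ← mul_assoc (L mid) m h]
      exact this
    · intro l h hl
      have e3 : L t' = L mid * (m * n) := by rw [en, em]; ring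
      have := hg t' (L mid * l) h (by rw [e3]; exact Nat.mul_lt_mul_of_pos_left hl hLm)
      show g (L mid * (l + m * n * h)) = g (L mid * l) + g (L mid * (m * n * h))
      rw [e3] at this
      rw [mul_add, ← mul_assoc (L mid) (m * n) h]
      exact this
    · unfold Mixed at hmix ⊢
      have e : ∀ z, g (L mid * (m * z)) = g (L t * z) := by
        intro z; rw [em, mul_assoc]
      simp only [e]
      exact hmix

theorem reg_lin {L : ℕ → ℕ} (hL : Sc L) {g : ℕ → ZMod r} (hg : Dig L g) {T : ℕ}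
    (h : ∀ t, T ≤ t → Reg L g t) : ∀ n t, T ≤ t → g (L t * n) = (n : ZMod r) * g (L t) := by
  intro n
  induction n using Nat.strong_induction_on with
  | _ n ih =>
    intro t ht
    by_cases hn : n * L t ≤ L (t + 1)
    · exact h t ht n hn
    · obtain ⟨l, hl, e⟩ := hL.step t
      have hlt := hL.pos t
      have hln : l < n := by
        rw [e] at hn
        by_contra h'
        exact hn (Nat.mul_le_mul_right _ (by omega))
      have hdm := Nat.mod_add_div n l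
      have hmod : n % l < l := Nat.mod_lt _ (by omega)
      have hdiv : n / l < n := Nat.div_lt_self (by omega) (by omega)
      have e1 : L t * n = L t * (n % l) + L (t + 1) * (n / l) := by
        conv_lhs => rw [← hdm]
        rw [e]; ring
      have e2 := hg (t + 1) (L t * (n % l)) (n / l) (by
        rw [e, mul_comm l]
        exact Nat.mul_lt_mul_of_pos_left hmod hlt)
      have e3 := ih (n % l) (by omega) t ht
      have e4 := ih (n / l) hdiv (t + 1) (by omega)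
      have e5 := h t ht l (by rw [e])
      have e6 : L t * l = L (t + 1) := by rw [e]; ring
      rw [e6] at e5
      rw [e1, e2, e3, e4, e5]
      have e7 : (n : ZMod r) = (n % l : ℕ) + (l : ZMod r) * (n / l : ℕ) := by
        conv_lhs => rw [← hdm]
        push_cast
        ring
      rw [e7]
      ring

theorem main_reg (hPER : PERM) {L : ℕ → ℕ} (hL : Sc L) {g : ℕ → ZMod r} (hg : Dig L g) {T₀ : ℕ}
    (h : ∀ t, T₀ ≤ t → Reg L g t) (T : ℕ) (ψ : ℕ → ℂ) (hψ : ∀ n, ψ (n + L T) = ψ n)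
    (hψ1 : ∀ n, ‖ψ n‖ ≤ 1) (ε : ℝ) (hε : 0 < ε) : ∃ N₀ : ℕ, ∀ N : ℕ, N₀ ≤ N →
  ∀ (c : ℕ) (β : ℝ), ‖∑ n ∈ Ioc 0 N, ((ArithmeticFunction.moebius n : ℤ) : ℂ) * ee (n * β) *
    (ψ (n + c) * ZMod.stdAddChar (g (n + c)))‖ ≤ ε * N := by
  set T₁ := max T T₀ with hT₁
  have hL1 := hL.pos T₁
  obtain ⟨k, _, ek⟩ := hL.quot' (le_max_left T T₀)
  have hlin := reg_lin hL hg h
  have hper : ∀ n, g (n + r * L T₁) = g n := by
    intro n
    have hdm := Nat.mod_add_div n (L T₁)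
    have hmod : n % L T₁ < L T₁ := Nat.mod_lt _ hL1
    have e1 : g n = g (n % L T₁) + ((n / L T₁ : ℕ) : ZMod r) * g (L T₁) := by
      conv_lhs => rw [← hdm]
      rw [hg T₁ _ _ hmod, hlin _ T₁ (le_max_right _ _)]
    have e2 : g (n + r * L T₁) = g (n % L T₁) + ((n / L T₁ + r : ℕ) : ZMod r) * g (L T₁) := by
      have : n + r * L T₁ = n % L T₁ + L T₁ * (n / L T₁ + r) := by
        conv_lhs => rw [← hdm]
        ring
      rw [this, hg T₁ _ _ hmod, hlin _ T₁ (le_max_right _ _)]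
    rw [e1, e2]
    push_cast
    rw [ZMod.natCast_self]
    ring
  have hr : 1 ≤ r := Nat.one_le_iff_ne_zero.2 (NeZero.ne r)
  obtain ⟨N₀, h0⟩ := hPER (r * L T₁) (Nat.mul_pos hr hL1) ε hε
  refine ⟨N₀, fun N hN c β => ?_⟩
  refine h0 N hN (fun n => ψ (n + c) * ZMod.stdAddChar (g (n + c))) ?_ ?_ β
  · intro n
    have e1 : n + r * L T₁ + c = n + c + r * L T₁ := by ring
    show ψ (n + r * L T₁ + c) * ZMod.stdAddChar (g (n + r * L T₁ + c)) =
      ψ (n + c) * ZMod.stdAddChar (g (n + c))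
    rw [e1, hper]
    have e2 : n + c + r * L T₁ = n + c + L T * (k * r) := by
      rw [hT₁, ek]; ring
    rw [e2, Pool.Agent.N213.BM.per_mul hψ]
  · intro n
    show ‖ψ (n + c) * ZMod.stdAddChar (g (n + c))‖ ≤ 1
    rw [norm_mul, norm_chi, mul_one]
    exact hψ1 _

theorem mainm (hPER : PERM) (hR : RIGM) (hG : GADM) : MAINM := by
  intro r _ L g hL hg hH T ψ hψ hψ1 ε hε
  rcases hH with ⟨T₀, h⟩ | ⟨δ₀, hδ₀, hirr⟩
  · exact main_reg hPER hL hg h T ψ hψ hψ1 ε hε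
  · obtain ⟨K, hK⟩ := exists_nat_ge (2 / δ₀)
    rw [div_le_iff₀ hδ₀] at hK
    obtain ⟨P, δ, N₁, hδ, hδ1, hP, hkat⟩ := kat_blocks ε hε (K + 2)
    have hpb : ∀ p q : ℕ, p < q ∧ p.Prime ∧ q.Prime ∧ K + 2 < p → ∃ S₀ : ℕ,
      ∀ (c : ℕ) (β : ℝ) (t : ℕ), ‖∑ x ∈ range (L S₀), cor g ψ p q c β (x + L S₀ * t)‖ ≤ δ * L S₀ := by
      rintro p q ⟨h1, h2, h3, h4⟩
      obtain ⟨η, hη, hη1, hw⟩ := win_mix hR hL hg hδ₀ hirr T h2 h3 h1.ne (by omega) (by omega) (by
        have a1 : (K : ℝ) ≤ p := by exact_mod_cast (by omega : K ≤ p)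
        have a2 : (1 : ℝ) ≤ q := by exact_mod_cast (by omega : 1 ≤ q)
        have a3 : (0 : ℝ) ≤ p := Nat.cast_nonneg _
        nlinarith [mul_le_mul_of_nonneg_right a1 hδ₀.le, mul_le_mul_of_nonneg_left a2 (mul_nonneg hδ₀.le a3)])
      exact pair_iter hG hL hg (by omega) h1.le hη hη1 hψ hψ1 hw δ hδ
    choose! Sf hSf using hpb
    set M := ∑ p ∈ P, ∑ q ∈ P, L (Sf p q) with hM
    obtain ⟨N₂, hN₂⟩ := exists_nat_ge ((M : ℝ) / δ)
    refine ⟨max N₁ N₂, fun N hN c β => ?_⟩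
    have key := hkat N ((le_max_left _ _).trans hN)
      (fun n => ee (n * β) * (ψ (n + c) * ZMod.stdAddChar (g (n + c)))) ?_ ?_ _ kf_mu
    · refine le_trans (le_of_eq ?_) key
      congr 1
      refine sum_congr rfl fun n _ => ?_
      ring
    · intro n
      rw [norm_mul, norm_mul, norm_ee, norm_chi, mul_one, one_mul]
      exact hψ1 _
    · intro p hp q hq hpq
      obtain ⟨hq1, hq2⟩ := hP q hq
      obtain ⟨hp1, hp2⟩ := hP p hp
      refine ⟨L (Sf p q), hL.pos _, ?_, fun t => ?_⟩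
      · have h1 : L (Sf p q) ≤ M := by
          calc L (Sf p q) ≤ ∑ q ∈ P, L (Sf p q) :=
                single_le_sum (f := fun q => L (Sf p q)) (fun _ _ => Nat.zero_le _) hq
            _ ≤ _ := single_le_sum (f := fun p => ∑ q ∈ P, L (Sf p q)) (fun _ _ => Nat.zero_le _) hp
        have h2 : (M : ℝ) ≤ δ * N := by
          have h3 : (M : ℝ) / δ ≤ N := hN₂.trans (by exact_mod_cast (le_max_right _ _).trans hN)
          rw [div_le_iff₀ hδ] at h3
          linarith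
        have h3 : (L (Sf p q) : ℝ) ≤ M := by exact_mod_cast h1
        linarith
      · exact hSf p q ⟨hpq, hp1, hq1, by omega⟩ c β t

end Pool.Agent.N213.CM
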