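import Pool.Agent.N213.CM.Stm
import Pool.Agent.N213.BM.Per

/-! # Project CM: the Möbius function and periodic functions with a linear twist (`PERM`) -/

set_option autoImplicit false

namespace Pool.Agent.N213.CM.PerX

open Finset Complex
open Pool.Agent.N213.BM.PerX

theorem mt_eq' {Q : ℕ} (h n : ℕ) (β : ℝ) :
    Pool.Agent.H446R3.SK.mt ((h : ℝ) / Q + β) n =
      ((ArithmeticFunction.moebius n : ℤ) : ℂ) * ee (n * β) * zz Q ^ (h * n) := by
  rw [Pool.Agent.H446R3.SK.mt, zz, ← Complex.exp_nat_mul, ee, mul_assoc _ (Complex.exp _) (Complex.exp _),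
    ← Complex.exp_add]
  congr 2
  push_cast
  ring

end Pool.Agent.N213.CM.PerX

namespace Pool.Agent.N213.CM

open Finset PerX
open Pool.Agent.N213.BM.PerX (zz cf norm_cf four ioc_range)
open Pool.Agent.H446R3.SK (dav_eps)

theorem perm : PERM := by
  intro Q hQ ε hε
  have hQ0 : (0 : ℝ) < Q := by exact_mod_cast hQ
  obtain ⟨N0, hN0⟩ := dav_eps (ε / (2 * Q)) (by positivity)
  refine ⟨max N0 1, fun N hN ψ hψ hb β => ?_⟩
  have hN1 : N0 ≤ N + 1 := by
    have := le_max_left N0 1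
    omega
  have hN2 : 1 ≤ N := (le_max_right _ _).trans hN
  have hN3 : (1 : ℝ) ≤ N := by exact_mod_cast hN2
  have key : (Q : ℂ) * ∑ n ∈ Ioc 0 N, ((ArithmeticFunction.moebius n : ℤ) : ℂ) * ee (n * β) * ψ n =
      ∑ h ∈ range Q, cf Q ψ h *
        ∑ n ∈ range (N + 1), Pool.Agent.H446R3.SK.mt ((h : ℝ) / Q + β) n := by
    have h1 : ∀ h : ℕ, ∑ n ∈ range (N + 1), Pool.Agent.H446R3.SK.mt ((h : ℝ) / Q + β) n =
        ∑ n ∈ Ioc 0 N, Pool.Agent.H446R3.SK.mt ((h : ℝ) / Q + β) n := by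
      intro h
      rw [ioc_range]
      rw [Pool.Agent.H446R3.SK.mt]; simp
    simp_rw [h1]
    rw [Finset.mul_sum]
    simp_rw [Finset.mul_sum]
    rw [Finset.sum_comm]
    refine Finset.sum_congr rfl fun n _ => ?_
    calc (Q : ℂ) * (((ArithmeticFunction.moebius n : ℤ) : ℂ) * ee (n * β) * ψ n)
        = ((ArithmeticFunction.moebius n : ℤ) : ℂ) * ee (n * β) * ((Q : ℂ) * ψ n) := by ring
      _ = ((ArithmeticFunction.moebius n : ℤ) : ℂ) * ee (n * β) *
            ∑ h ∈ range Q, cf Q ψ h * zz Q ^ (h * n) := by rw [four hQ hψ n]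
      _ = _ := by
          rw [Finset.mul_sum]
          refine Finset.sum_congr rfl fun h _ => ?_
          rw [mt_eq']
          ring
  have h2 : ‖(Q : ℂ) * ∑ n ∈ Ioc 0 N, ((ArithmeticFunction.moebius n : ℤ) : ℂ) * ee (n * β) * ψ n‖ ≤
      Q * (Q * (ε / (2 * Q) * ((N + 1 : ℕ) : ℝ))) := by
    rw [key]
    refine (norm_sum_le _ _).trans ?_
    refine (Finset.sum_le_sum (g := fun _ => (Q : ℝ) * (ε / (2 * Q) * ((N + 1 : ℕ) : ℝ)))
      fun h _ => ?_).trans ?_
    · rw [norm_mul]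
      exact mul_le_mul (norm_cf hb h) (hN0 (N + 1) hN1 _) (norm_nonneg _) hQ0.le
    · rw [Finset.sum_const, card_range, nsmul_eq_mul]
  rw [norm_mul, Complex.norm_natCast] at h2
  have h3 := le_of_mul_le_mul_left h2 hQ0
  refine h3.trans ?_
  have h4 : (Q : ℝ) * (ε / (2 * Q) * ((N + 1 : ℕ) : ℝ)) = ε / 2 * (N + 1) := by
    push_cast
    field_simp
  rw [h4]
  nlinarith

end Pool.Agent.N213.CM
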