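import Pool.Agent.N213.CM.Stm
import Pool.Agent.N213.BM.Words

/-! # Project CM: functions of `H` consecutive values (part WORDS, helper371; adapted from the
file `Pool/Agent/N213/BM/Words3.lean` for `ZMod 2`, helper545) -/

set_option autoImplicit false

namespace Pool.Agent.N213.CM

open Finset
open Pool.Agent.N213.BM (Sc)

namespace WordsX

/-- the values on `H` consecutive integers in a block -/
theorem g_shift {r : ℕ} {L : ℕ → ℕ} {g : ℕ → ZMod r} (hg : Dig L g) {T m i : ℕ}
    (h : m % L T + i < L T) :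
    g (m + i) = g m + (g (m % L T + i) - g (m % L T)) := by
  have h1 := hg T (m % L T) (m / L T) (by omega)
  have h2 := hg T (m % L T + i) (m / L T) h
  have e1 : m % L T + L T * (m / L T) = m := Nat.mod_add_div m (L T)
  have e2 : m % L T + i + L T * (m / L T) = m + i := by omega
  rw [e1] at h1
  rw [e2] at h2
  rw [h1, h2]
  ring

theorem norm_ee (x : ℝ) : ‖ee x‖ = 1 := by
  unfold ee
  have : (2 * (Real.pi : ℂ) * Complex.I * (x : ℂ)) = ((2 * Real.pi * x : ℝ) : ℂ) * Complex.I := by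
    push_cast
    ring
  rw [this, Complex.norm_exp_ofReal_mul_I]

theorem norm_chi {r : ℕ} [NeZero r] (x : ZMod r) : ‖(ZMod.stdAddChar x : ℂ)‖ = 1 :=
  AddChar.norm_apply _ _

/-- the Fourier coefficients of a function on `ZMod r` -/
noncomputable def co {r : ℕ} [NeZero r] (f : ZMod r → ℂ) (j : ZMod r) : ℂ :=
  (∑ e, f e * ZMod.stdAddChar (-(j * e))) / r

theorem norm_co {r : ℕ} [NeZero r] (f : ZMod r → ℂ) (hf : ∀ e, ‖f e‖ ≤ 1) (j : ZMod r) :
    ‖co f j‖ ≤ 1 := by
  unfold co
  have hr : (0 : ℝ) < r := by exact_mod_cast Nat.pos_of_ne_zero (NeZero.ne r)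
  rw [norm_div, Complex.norm_natCast, div_le_one hr]
  refine (norm_sum_le_of_le _ (fun e _ => ?_) (n := fun _ => (1 : ℝ))).trans ?_
  · rw [norm_mul, norm_chi, mul_one]
    exact hf e
  · rw [Finset.sum_const, nsmul_eq_mul, mul_one, Finset.card_univ, ZMod.card]

theorem inversion {r : ℕ} [NeZero r] (f : ZMod r → ℂ) (e : ZMod r) :
    f e = ∑ j, co f j * ZMod.stdAddChar (j * e) := by
  classical
  have hr : (r : ℂ) ≠ 0 := by exact_mod_cast NeZero.ne r
  have h1 : ∀ j : ZMod r, co f j * ZMod.stdAddChar (j * e) =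
      ∑ e', f e' / r * ZMod.stdAddChar (j * (e - e')) := by
    intro j
    unfold co
    rw [Finset.sum_div, Finset.sum_mul]
    refine Finset.sum_congr rfl fun e' _ => ?_
    have h2 : (ZMod.stdAddChar (j * (e - e')) : ℂ) =
        ZMod.stdAddChar (-(j * e')) * ZMod.stdAddChar (j * e) := by
      rw [← AddChar.map_add_eq_mul]
      congr 1
      ring
    rw [h2]
    ring
  rw [Finset.sum_congr rfl fun j _ => h1 j, Finset.sum_comm]
  have h3 : ∀ e' : ZMod r, ∑ j, f e' / r * (ZMod.stdAddChar (j * (e - e')) : ℂ) =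
      if e - e' = 0 then f e' else 0 := by
    intro e'
    rw [← Finset.mul_sum, AddChar.sum_mulShift _ (ZMod.isPrimitive_stdAddChar r), ZMod.card]
    split_ifs with h
    · field_simp
    · simp
  rw [Finset.sum_congr rfl fun e' _ => h3 e', Finset.sum_eq_single e]
  · simp
  · intro b _ hb
    rw [if_neg]
    intro h
    exact hb (sub_eq_zero.1 h).symm
  · intro h
    exact absurd (Finset.mem_univ _) h

end WordsX

open WordsX in
/-- `WORDSM` from `MAINM` -/
theorem wordsm : T_WORDSM := by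
  classical
  intro hmain r _ L g hL hg hH H ε hε
  have hr : (0 : ℝ) < r := by exact_mod_cast Nat.pos_of_ne_zero (NeZero.ne r)
  obtain ⟨T, hT⟩ : ∃ T : ℕ, 8 * (H : ℝ) / ε ≤ L T := by
    obtain ⟨k, hk⟩ := pow_unbounded_of_one_lt (8 * (H : ℝ) / ε) (one_lt_two)
    refine ⟨k, hk.le.trans ?_⟩
    exact_mod_cast Pool.Agent.N213.BM.WordsX.Sc_pow hL k
  obtain ⟨M, hM⟩ : ∃ M, M = L T := ⟨_, rfl⟩
  have hp : 0 < M := by
    rw [hM]
    exact lt_of_lt_of_le (by positivity) (Pool.Agent.N213.BM.WordsX.Sc_pow hL T)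
  have hp' : (0 : ℝ) < M := by exact_mod_cast hp
  -- the indicator functions of the residue classes
  let χ : ℕ → ℕ → ℂ := fun ρ m => if m % M = ρ then 1 else 0
  have hχ1 : ∀ ρ n, χ ρ (n + L T) = χ ρ n := by
    intro ρ n
    simp only [χ]
    rw [← hM, Nat.add_mod_right]
  have hχ2 : ∀ ρ n, ‖χ ρ n‖ ≤ 1 := by
    intro ρ n
    simp only [χ]
    split_ifs <;> simp
  have hε₁ : 0 < ε / 2 / (r * M) := by positivity
  have hdig : ∀ j : ZMod r, Dig L (fun n => j * g n) := by
    intro j k l h hl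
    show j * g (l + L k * h) = j * g l + j * g (L k * h)
    rw [hg k l h hl]
    ring
  choose N₁ hN₁ using fun (j : ZMod r) (ρ : ℕ) => hmain r L (fun n => j * g n) hL (hdig j) (hH j) T
    (χ ρ) (hχ1 ρ) (hχ2 ρ) (ε / 2 / (r * M)) hε₁
  obtain ⟨N₂, hN₂⟩ := exists_nat_ge (16 * (H : ℝ) / ε)
  refine ⟨max N₂ ((Finset.univ : Finset (ZMod r)).sup fun j => (range M).sup (N₁ j)),
    fun N hN c β Φ hΦ => ?_⟩
  have hN2 : N₂ ≤ N := le_trans (le_max_left _ _) hN
  have hN1 : ∀ j, ∀ ρ ∈ range M, N₁ j ρ ≤ N := fun j ρ hρ =>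
    le_trans (le_trans (Finset.le_sup hρ)
      (Finset.le_sup (f := fun j => (range M).sup (N₁ j)) (Finset.mem_univ j)))
      (le_trans (le_max_right _ _) hN)
  -- the functions of the residue
  let A : ℕ → ZMod r → ℂ := fun ρ e => Φ fun i => e + (g (ρ + i) - g ρ)
  have hA : ∀ ρ e, ‖A ρ e‖ ≤ 1 := fun ρ e => hΦ _
  have hgood : ∀ m, m % M + H ≤ M → A (m % M) (g m) = Φ fun i => g (m + i) := by
    intro m hm
    simp only [A]
    congr 1
    funext i
    have h1 : m % L T + (i : ℕ) < L T := by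
      rw [← hM]
      have := i.2
      omega
    rw [g_shift hg h1, hM]
  have hmu : ∀ n : ℕ, ‖((ArithmeticFunction.moebius n : ℤ) : ℂ) * ee (n * β)‖ ≤ 1 := by
    intro n
    rw [norm_mul, norm_ee, mul_one, Complex.norm_intCast]
    exact_mod_cast ArithmeticFunction.abs_moebius_le_one
  have hH0 : (0 : ℝ) ≤ H := Nat.cast_nonneg _
  have hNR : (0 : ℝ) ≤ N := Nat.cast_nonneg _
  -- the bad integers
  have hdiff : ‖∑ n ∈ Ioc 0 N, ((ArithmeticFunction.moebius n : ℤ) : ℂ) * ee (n * β) *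
      (Φ (fun i => g (n + c + i)) - A ((n + c) % M) (g (n + c)))‖ ≤
        2 * ((N / M + 2 : ℕ) * H) := by
    refine (norm_sum_le_of_le _ (fun n _ => ?_) (n := fun n =>
      if ¬ ((n + c) % M + H ≤ M) then (2 : ℝ) else 0)).trans ?_
    · rw [norm_mul]
      by_cases hgd : (n + c) % M + H ≤ M
      · rw [if_neg (not_not.2 hgd), hgood _ hgd, sub_self, norm_zero, mul_zero]
      · rw [if_pos hgd]
        refine (mul_le_of_le_one_left (norm_nonneg _) (hmu n)).trans ?_
        refine (norm_sub_le _ _).trans ?_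
        have := hΦ fun i => g (n + c + i)
        have := hA ((n + c) % M) (g (n + c))
        linarith
    · rw [← Finset.sum_filter, Finset.sum_const, nsmul_eq_mul]
      have h1 : ((((Ioc 0 N).filter fun n => ¬ ((n + c) % M + H ≤ M)).card : ℕ) : ℝ) ≤
          (((N / M + 2) * H : ℕ) : ℝ) := by
        exact_mod_cast Pool.Agent.N213.BM.WordsX.bad_card M H c N hp
      push_cast at h1 ⊢
      linarith
  have hb : (2 : ℝ) * (((N / M + 2 : ℕ) : ℝ) * H) ≤ ε / 2 * N := by
    have h1 : ((N / M + 2 : ℕ) : ℝ) ≤ N / M + 2 := by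
      push_cast
      have := Nat.cast_div_le (α := ℝ) (m := N) (n := M)
      linarith
    have h3 : (H : ℝ) * (N / M) ≤ ε / 8 * N := by
      rw [mul_div_assoc', div_le_iff₀ hp']
      rw [div_le_iff₀ hε, ← hM] at hT
      have : (H : ℝ) ≤ ε / 8 * M := by linarith
      calc (H : ℝ) * N ≤ ε / 8 * M * N := mul_le_mul_of_nonneg_right this hNR
        _ = _ := by ring
    have h4 : 16 * (H : ℝ) ≤ ε * N := by
      rw [div_le_iff₀ hε] at hN₂
      have : (N₂ : ℝ) ≤ N := by exact_mod_cast hN2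
      nlinarith
    calc (2 : ℝ) * (((N / M + 2 : ℕ) : ℝ) * H) ≤ 2 * ((N / M + 2) * H) := by
          gcongr
      _ = 2 * (H * (N / M)) + 4 * H := by ring
      _ ≤ _ := by linarith
  -- the main part
  have hQ : ‖∑ n ∈ Ioc 0 N, ((ArithmeticFunction.moebius n : ℤ) : ℂ) * ee (n * β) *
      A ((n + c) % M) (g (n + c))‖ ≤ ε / 2 * N := by
    have h1 : ∀ m, A (m % M) (g m) =
        ∑ j, ∑ ρ ∈ range M, co (A ρ) j * (χ ρ m * ZMod.stdAddChar (j * g m)) := by
      intro m
      have hm : m % M < M := Nat.mod_lt _ hp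
      rw [inversion (A (m % M)) (g m)]
      refine Finset.sum_congr rfl fun j _ => ?_
      rw [Finset.sum_eq_single (m % M)]
      · simp only [χ, if_true, one_mul]
      · intro ρ _ hρ
        simp only [χ]
        rw [if_neg (fun h => hρ h.symm), zero_mul, mul_zero]
      · intro h
        exact absurd (mem_range.2 hm) h
    have h2 : ∑ n ∈ Ioc 0 N, ((ArithmeticFunction.moebius n : ℤ) : ℂ) * ee (n * β) *
        A ((n + c) % M) (g (n + c)) = ∑ j, ∑ ρ ∈ range M, co (A ρ) j *
          ∑ n ∈ Ioc 0 N, ((ArithmeticFunction.moebius n : ℤ) : ℂ) * ee (n * β) *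
            (χ ρ (n + c) * ZMod.stdAddChar (j * g (n + c))) := by
      have h3 : ∀ n ∈ Ioc 0 N, ((ArithmeticFunction.moebius n : ℤ) : ℂ) * ee (n * β) *
          A ((n + c) % M) (g (n + c)) = ∑ j, ∑ ρ ∈ range M, co (A ρ) j *
            (((ArithmeticFunction.moebius n : ℤ) : ℂ) * ee (n * β) *
              (χ ρ (n + c) * ZMod.stdAddChar (j * g (n + c)))) := by
        intro n _
        rw [h1 (n + c), Finset.mul_sum]
        refine Finset.sum_congr rfl fun j _ => ?_
        rw [Finset.mul_sum]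
        refine Finset.sum_congr rfl fun ρ _ => ?_
        ring
      rw [Finset.sum_congr rfl h3, Finset.sum_comm]
      refine Finset.sum_congr rfl fun j _ => ?_
      rw [Finset.sum_comm]
      refine Finset.sum_congr rfl fun ρ _ => ?_
      exact (Finset.mul_sum _ _ _).symm
    rw [h2]
    refine (norm_sum_le_of_le _ (fun j _ => ?_) (n := fun _ => M * (ε / 2 / (r * M) * N))).trans ?_
    · refine (norm_sum_le_of_le _ (fun ρ hρ => ?_) (n := fun _ => ε / 2 / (r * M) * N)).trans ?_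
      · rw [norm_mul]
        exact (mul_le_of_le_one_left (norm_nonneg _) (norm_co _ (hA ρ) j)).trans
          (hN₁ j ρ N (hN1 j ρ hρ) c β)
      · rw [Finset.sum_const, card_range, nsmul_eq_mul]
    · rw [Finset.sum_const, nsmul_eq_mul, Finset.card_univ, ZMod.card]
      apply le_of_eq
      field_simp
  have hsum : ∑ n ∈ Ioc 0 N, ((ArithmeticFunction.moebius n : ℤ) : ℂ) * ee (n * β) *
      Φ (fun i => g (n + c + i)) = ∑ n ∈ Ioc 0 N, ((ArithmeticFunction.moebius n : ℤ) : ℂ) *
        ee (n * β) * (Φ (fun i => g (n + c + i)) - A ((n + c) % M) (g (n + c))) +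
      ∑ n ∈ Ioc 0 N, ((ArithmeticFunction.moebius n : ℤ) : ℂ) * ee (n * β) *
        A ((n + c) % M) (g (n + c)) := by
    rw [← Finset.sum_add_distrib]
    refine Finset.sum_congr rfl fun n _ => ?_
    ring
  rw [hsum]
  refine (norm_add_le _ _).trans ?_
  have h6 := hdiff.trans hb
  linarith

end Pool.Agent.N213.CM
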